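import Mathlib

set_option autoImplicit false
open Filter Metric Set Topology

namespace Pool.Agent.Lib.MP_c40ba2_an

/-- The `n`-th Taylor coefficient of `f` at the origin. -/
noncomputable def taylorCoeff (f : ℂ → ℂ) (n : ℕ) : ℂ :=
  iteratedDeriv n f 0 / (n.factorial : ℂ)

/-- The Hadamard product (convolution) `(f * g)(z) = ∑ aₙ bₙ zⁿ` of `f(z) = ∑ aₙ zⁿ` and
`g(z) = ∑ bₙ zⁿ`. -/
noncomputable def hadamard (f g : ℂ → ℂ) (z : ℂ) : ℂ :=
  ∑' n : ℕ, taylorCoeff f n * taylorCoeff g n * z ^ n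

/-- The function `z ↦ (1 + x z)^α / (1 - z)^β`, with the branches that equal `1` at `z = 0`
(the principal branches, since `1 + x z` and `1 - z` have positive real part for
`‖x‖ ≤ 1`, `‖z‖ < 1`). -/
noncomputable def testFun (α β : ℝ) (x : ℂ) (z : ℂ) : ℂ :=
  (1 + x * z) ^ (α : ℂ) / (1 - z) ^ (β : ℂ)

/-- The class `T(α, β)`: holomorphic functions `φ` on the unit disc with `φ(0) = 1` such that the
Hadamard product of `φ` with `(1 + x z)^α / (1 - z)^β` has no zero in the unit disc, for every `x`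
on the unit circle. -/
def classT (α β : ℝ) : Set (ℂ → ℂ) :=
  {φ | DifferentiableOn ℂ φ (ball 0 1) ∧ φ 0 = 1 ∧
    ∀ x : ℂ, ‖x‖ = 1 → ∀ z ∈ ball (0 : ℂ) 1, hadamard φ (testFun α β x) z ≠ 0}

/-- A family `F` of functions is normal in `U` if every sequence in `F` has a subsequence that
converges locally uniformly in `U`. -/
def IsNormalFamily (F : Set (ℂ → ℂ)) (U : Set ℂ) : Prop :=
  ∀ f : ℕ → ℂ → ℂ, (∀ k, f k ∈ F) → ∃ (s : ℕ → ℕ) (g : ℂ → ℂ), StrictMono s ∧
    TendstoLocallyUniformlyOn (fun k => f (s k)) g atTop U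

end Pool.Agent.Lib.MP_c40ba2_an
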