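import Mathlib

set_option autoImplicit false
open Filter Metric Set Topology

namespace Pool.Agent.Lib.MP_c40ba2_an

/-- Cauchy bound for Taylor coefficients. -/
theorem norm_taylor_le {R r M : ℝ} {f : ℂ → ℂ} (hf : DifferentiableOn ℂ f (ball 0 R))
    (hr : 0 < r) (hrR : r < R) (hM : ∀ z, ‖z‖ ≤ r → ‖f z‖ ≤ M) (n : ℕ) :
    ‖iteratedDeriv n f 0 / (n.factorial : ℂ)‖ ≤ M / r ^ n := by
  have hd : DiffContOnCl ℂ f (ball 0 r) := by
    apply DifferentiableOn.diffContOnCl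
    apply hf.mono
    rw [closure_ball (0 : ℂ) hr.ne']
    exact closedBall_subset_ball hrR
  have h := Complex.norm_iteratedDeriv_le_of_forall_mem_sphere_norm_le n hr hd
    (fun z hz => hM z (by simpa using (mem_sphere_zero_iff_norm.1 hz).le))
  rw [norm_div, Complex.norm_natCast]
  have hfac : (0 : ℝ) < n.factorial := by positivity
  rw [div_le_iff₀ hfac]
  calc ‖iteratedDeriv n f 0‖ ≤ n.factorial * M / r ^ n := h
    _ = M / r ^ n * n.factorial := by ring

theorem hasSum_taylor {R : ℝ} {f : ℂ → ℂ} (hf : DifferentiableOn ℂ f (ball 0 R)) {z : ℂ}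
    (hz : ‖z‖ < R) :
    HasSum (fun n : ℕ => iteratedDeriv n f 0 / (n.factorial : ℂ) * z ^ n) (f z) := by
  have h := Complex.hasSum_taylorSeries_on_ball (c := 0) (r := R) (z := z) hf (by simpa using hz)
  have heq : (fun n : ℕ => iteratedDeriv n f 0 / (n.factorial : ℂ) * z ^ n) =
      fun n : ℕ => (n.factorial : ℂ)⁻¹ • (z - 0) ^ n • iteratedDeriv n f 0 := by
    funext n
    simp only [sub_zero, smul_eq_mul]
    ring
  rw [heq]
  exact h

/-- Montel's theorem for sequences on a disc. -/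
theorem montel {R : ℝ} (hR : 0 < R) (f : ℕ → ℂ → ℂ) (hf : ∀ k, DifferentiableOn ℂ (f k) (ball 0 R))
    (hb : ∀ r, 0 < r → r < R → ∃ M : ℝ, ∀ k, ∀ z, ‖z‖ ≤ r → ‖f k z‖ ≤ M) :
    ∃ (s : ℕ → ℕ) (g : ℂ → ℂ), StrictMono s ∧
      TendstoLocallyUniformlyOn (fun k => f (s k)) g atTop (ball 0 R) := by
  set a : ℕ → ℕ → ℂ := fun k n => iteratedDeriv n (f k) 0 / (n.factorial : ℂ) with ha
  obtain ⟨M₀, hM₀⟩ := hb (R / 2) (by linarith) (by linarith)
  have hbd : ∀ k n, ‖a k n‖ ≤ M₀ / (R / 2) ^ n := fun k n =>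
    norm_taylor_le (hf k) (by linarith) (by linarith) (hM₀ k) n
  have hcomp : IsCompact (Set.pi univ (fun n : ℕ => closedBall (0 : ℂ) (M₀ / (R / 2) ^ n))) :=
    isCompact_univ_pi (fun n => isCompact_closedBall _ _)
  obtain ⟨b, _, s, hs, hlim⟩ := hcomp.tendsto_subseq (x := a)
    (fun k => by
      intro n _
      simpa using hbd k n)
  have hlim' : ∀ n, Tendsto (fun k => a (s k) n) atTop (𝓝 (b n)) := by
    intro n
    exact (tendsto_pi_nhds.1 hlim) n
  refine ⟨s, fun z => ∑' n, b n * z ^ n, hs, ?_⟩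
  rw [tendstoLocallyUniformlyOn_iff_forall_isCompact isOpen_ball]
  intro K hK hKc
  -- a radius containing K
  obtain ⟨r, hr0, hrR, hKr⟩ : ∃ r, 0 < r ∧ r < R ∧ ∀ z ∈ K, ‖z‖ ≤ r := by
    rcases K.eq_empty_or_nonempty with rfl | hne
    · exact ⟨R / 2, by linarith, by linarith, by simp⟩
    · obtain ⟨z₀, hz₀, hmax⟩ := hKc.exists_isMaxOn hne continuous_norm.continuousOn
      have h1 : ‖z₀‖ < R := by simpa using hK hz₀
      refine ⟨max ‖z₀‖ (R / 2), lt_of_lt_of_le (by linarith) (le_max_right _ _),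
        max_lt h1 (by linarith), fun z hz => (hmax hz).trans (le_max_left _ _)⟩
  obtain ⟨r', hr'⟩ : ∃ r' : ℝ, r' = (r + R) / 2 := ⟨_, rfl⟩
  have hrr' : r < r' := by rw [hr']; linarith
  have hr'R : r' < R := by rw [hr']; linarith
  have hr'0 : 0 < r' := hr0.trans hrr'
  obtain ⟨M, hM⟩ := hb r' hr'0 hr'R
  have hbd' : ∀ k n, ‖a k n‖ ≤ M / r' ^ n := fun k n =>
    norm_taylor_le (hf k) hr'0 hr'R (hM k) n
  have hbb : ∀ n, ‖b n‖ ≤ M / r' ^ n := fun n =>
    le_of_tendsto ((hlim' n).norm) (Eventually.of_forall fun k => hbd' _ _)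
  have hq0 : 0 ≤ r / r' := by positivity
  have hq1 : r / r' < 1 := by rw [div_lt_one hr'0]; exact hrr'
  have hsumq : Summable (fun n : ℕ => 2 * M * (r / r') ^ n) :=
    (summable_geometric_of_lt_one hq0 hq1).mul_left _
  have hterm : ∀ k n, ‖a k n - b n‖ * r ^ n ≤ 2 * M * (r / r') ^ n := by
    intro k n
    have h1 : ‖a k n - b n‖ ≤ 2 * M / r' ^ n := by
      calc ‖a k n - b n‖ ≤ ‖a k n‖ + ‖b n‖ := norm_sub_le _ _
        _ ≤ M / r' ^ n + M / r' ^ n := add_le_add (hbd' k n) (hbb n)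
        _ = 2 * M / r' ^ n := by ring
    calc ‖a k n - b n‖ * r ^ n ≤ 2 * M / r' ^ n * r ^ n := by gcongr
      _ = 2 * M * (r / r') ^ n := by rw [div_pow]; ring
  have hE : Tendsto (fun k => ∑' n, ‖a (s k) n - b n‖ * r ^ n) atTop (𝓝 (∑' n : ℕ, (0 : ℝ))) := by
    apply tendsto_tsum_of_dominated_convergence (bound := fun n => 2 * M * (r / r') ^ n) hsumq
    · intro n
      have h1 : Tendsto (fun k => ‖a (s k) n - b n‖ * r ^ n) atTop (𝓝 (‖b n - b n‖ * r ^ n)) :=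
        (((hlim' n).sub_const (b n)).norm).mul_const _
      simpa using h1
    · refine Eventually.of_forall fun k n => ?_
      rw [Real.norm_of_nonneg (by positivity)]
      exact hterm _ _
  rw [tsum_zero] at hE
  rw [Metric.tendstoUniformlyOn_iff]
  intro ε hε
  filter_upwards [(tendsto_order.1 hE).2 ε hε] with k hk z hz
  have hzr : ‖z‖ ≤ r := hKr z hz
  have hzR : ‖z‖ < R := hzr.trans_lt hrR
  have hs1 : HasSum (fun n : ℕ => a (s k) n * z ^ n) (f (s k) z) := hasSum_taylor (hf (s k)) hzR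
  have hsb : Summable (fun n : ℕ => b n * z ^ n) := by
    apply Summable.of_norm_bounded (g := fun n => M * (r / r') ^ n)
      ((summable_geometric_of_lt_one hq0 hq1).mul_left _)
    intro n
    rw [norm_mul, norm_pow]
    calc ‖b n‖ * ‖z‖ ^ n ≤ M / r' ^ n * r ^ n := by
          gcongr
          exact le_trans (norm_nonneg _) (hbb n)
          exact hbb n
      _ = M * (r / r') ^ n := by rw [div_pow]; ring
  have hsum : Summable (fun n : ℕ => ‖a (s k) n - b n‖ * r ^ n) :=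
    Summable.of_nonneg_of_le (fun n => by positivity) (hterm (s k)) hsumq
  rw [dist_eq_norm, ← hs1.tsum_eq, ← hsb.tsum_sub hs1.summable]
  refine lt_of_le_of_lt ?_ hk
  have hnorm : ∀ n, ‖b n * z ^ n - a (s k) n * z ^ n‖ ≤ ‖a (s k) n - b n‖ * r ^ n := by
    intro n
    rw [← sub_mul, norm_mul, norm_pow, norm_sub_rev]
    gcongr
  exact tsum_of_norm_bounded hsum.hasSum hnorm

/-- A bounded holomorphic function with a definite value at the centre is bounded below on some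
circle, with constants depending only on the bounds. -/
theorem min_modulus {R₁ R₂ R L δ : ℝ} (h0 : 0 < R₁) (h12 : R₁ < R₂) (h2 : R₂ < R) (hδ : 0 < δ) :
    ∃ m : ℝ, 0 < m ∧ ∀ y : ℂ → ℂ, DifferentiableOn ℂ y (ball 0 R) →
      (∀ z, ‖z‖ < R → ‖y z‖ ≤ L) → δ ≤ ‖y 0‖ →
      ∃ r, R₁ < r ∧ r < R₂ ∧ ∀ z, ‖z‖ = r → m ≤ ‖y z‖ := by
  by_contra hcon
  push Not at hcon
  have hR : 0 < R := by linarith
  have hex : ∀ k : ℕ, ∃ y : ℂ → ℂ, DifferentiableOn ℂ y (ball 0 R) ∧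
      (∀ z, ‖z‖ < R → ‖y z‖ ≤ L) ∧ δ ≤ ‖y 0‖ ∧
      ∀ r, R₁ < r → r < R₂ → ∃ z, ‖z‖ = r ∧ ‖y z‖ < 1 / ((k : ℝ) + 1) := by
    intro k
    exact hcon (1 / ((k : ℝ) + 1)) (by positivity)
  choose y hyd hyL hy0 hyr using hex
  obtain ⟨s, g, hs, hlim⟩ := montel hR y hyd
    (fun r hr hrR => ⟨L, fun k z hz => hyL k z (hz.trans_lt hrR)⟩)
  have hgd : DifferentiableOn ℂ g (ball 0 R) :=
    hlim.differentiableOn (Eventually.of_forall fun k => hyd (s k)) isOpen_ball
  have hg0 : δ ≤ ‖g 0‖ := by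
    have h1 : Tendsto (fun k => y (s k) 0) atTop (𝓝 (g 0)) :=
      hlim.tendsto_at (mem_ball_self hR)
    exact ge_of_tendsto h1.norm (Eventually.of_forall fun k => hy0 (s k))
  have hga : AnalyticOnNhd ℂ g (ball 0 R) := hgd.analyticOnNhd isOpen_ball
  -- some circle free of zeros
  have hcirc : ∃ r, R₁ < r ∧ r < R₂ ∧ ∀ z, ‖z‖ = r → g z ≠ 0 := by
    by_contra hno
    push Not at hno
    choose! w hw1 hw2 using hno
    set Z : Set ℂ := {z | ‖z‖ ≤ R₂ ∧ g z = 0} with hZ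
    have hinf : Z.Infinite := by
      have h1 : (Ioo R₁ R₂).Infinite := Ioo_infinite h12
      have h2 : MapsTo w (Ioo R₁ R₂) Z := by
        intro r hr
        exact ⟨by rw [hw1 r hr.1 hr.2]; exact hr.2.le, hw2 r hr.1 hr.2⟩
      have h3 : InjOn w (Ioo R₁ R₂) := by
        intro r hr t ht hrt
        rw [← hw1 r hr.1 hr.2, ← hw1 t ht.1 ht.2, hrt]
      exact infinite_of_injOn_mapsTo h3 h2 h1
    obtain ⟨x, hx, hacc⟩ := hinf.exists_accPt_of_subset_isCompact
      (isCompact_closedBall (0 : ℂ) R₂) (fun z hz => by simpa using hz.1)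
    have hxR : x ∈ ball (0 : ℂ) R := closedBall_subset_ball h2 hx
    have hfr : ∃ᶠ z in 𝓝[≠] x, g z = 0 := by
      rw [accPt_iff_frequently_nhdsNE] at hacc
      exact hacc.mono fun z hz => hz.2
    have hzero := hga.eqOn_zero_of_preconnected_of_frequently_eq_zero
      (convex_ball (0 : ℂ) R).isPreconnected hxR hfr
    have h0' := hzero (mem_ball_self hR)
    simp only [Pi.zero_apply] at h0'
    rw [h0', norm_zero] at hg0
    linarith
  obtain ⟨r, hr1, hr2, hrz⟩ := hcirc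
  have hr0 : 0 < r := h0.trans hr1
  have hKc : IsCompact (sphere (0 : ℂ) r) := isCompact_sphere _ _
  have hKsub : sphere (0 : ℂ) r ⊆ ball 0 R := by
    intro z hz
    rw [mem_sphere_zero_iff_norm] at hz
    simp only [mem_ball, dist_zero_right]
    linarith
  have hne : (sphere (0 : ℂ) r).Nonempty := by
    refine ⟨(r : ℂ), ?_⟩
    rw [mem_sphere_zero_iff_norm, Complex.norm_real, Real.norm_of_nonneg hr0.le]
  obtain ⟨z₀, hz₀, hmin⟩ := hKc.exists_isMinOn hne ((hgd.continuousOn.mono hKsub).norm)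
  have hpos : 0 < ‖g z₀‖ := norm_pos_iff.2 (hrz z₀ (by simpa using hz₀))
  have hunif := (tendstoLocallyUniformlyOn_iff_forall_isCompact isOpen_ball).1 hlim _ hKsub hKc
  rw [Metric.tendstoUniformlyOn_iff] at hunif
  have hev1 := hunif (‖g z₀‖ / 2) (by positivity)
  have hev2 : ∀ᶠ k : ℕ in atTop, 1 / ((s k : ℝ) + 1) < ‖g z₀‖ / 2 := by
    have h1 : Tendsto (fun k : ℕ => 1 / ((s k : ℝ) + 1)) atTop (𝓝 0) :=
      tendsto_one_div_add_atTop_nhds_zero_nat.comp hs.tendsto_atTop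
    exact (tendsto_order.1 h1).2 _ (by positivity)
  obtain ⟨k, hk1, hk2⟩ := (hev1.and hev2).exists
  obtain ⟨z, hz, hzy⟩ := hyr (s k) r hr1 hr2
  have hzs : z ∈ sphere (0 : ℂ) r := by simpa using hz
  have h1 := hk1 z hzs
  have h2 : ‖g z₀‖ ≤ ‖g z‖ := hmin hzs
  rw [dist_eq_norm] at h1
  have h3 : ‖g z‖ ≤ ‖g z - y (s k) z‖ + ‖y (s k) z‖ := by
    calc ‖g z‖ = ‖(g z - y (s k) z) + y (s k) z‖ := by ring_nf
      _ ≤ _ := norm_add_le _ _
  linarith

end Pool.Agent.Lib.MP_c40ba2_an
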