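import Mathlib

set_option autoImplicit false
open Filter Metric Set Topology

namespace Pool.Agent.Lib.MP_c40ba2_an

/-- A forward Gronwall bound on `[0,1]`. -/
theorem gronwall_unit {u u' : ℝ → ℂ} {K : ℝ}
    (hd : ∀ t ∈ Icc (0 : ℝ) 1, HasDerivAt u (u' t) t)
    (hb : ∀ t ∈ Icc (0 : ℝ) 1, ‖u' t‖ ≤ K * ‖u t‖) :
    ‖u 1‖ ≤ ‖u 0‖ * Real.exp K := by
  have h := norm_le_gronwallBound_of_norm_deriv_right_le (f := u) (f' := u') (δ := ‖u 0‖)
    (K := K) (ε := 0) (a := 0) (b := 1)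
    (fun t ht => (hd t ht).continuousAt.continuousWithinAt)
    (fun t ht => (hd t (Ico_subset_Icc_self ht)).hasDerivWithinAt) le_rfl
    (fun t ht => by simpa using hb t (Ico_subset_Icc_self ht)) 1 (by simp)
  simpa [gronwallBound_ε0] using h

/-- If `‖u'‖ ≤ K ‖u‖` whenever `‖u‖ ≥ m`, then a very large initial value forces `‖u‖ > m`
throughout. -/
theorem ode_persist {u u' : ℝ → ℂ} {K m : ℝ} (hm : 0 < m) (hK : 0 ≤ K)
    (hd : ∀ t ∈ Icc (0 : ℝ) 1, HasDerivAt u (u' t) t)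
    (hb : ∀ t ∈ Icc (0 : ℝ) 1, m ≤ ‖u t‖ → ‖u' t‖ ≤ K * ‖u t‖)
    (h0 : m * Real.exp K < ‖u 0‖) : ∀ t ∈ Icc (0 : ℝ) 1, m < ‖u t‖ := by
  by_contra hcon
  push Not at hcon
  obtain ⟨t₁, ht₁, hut₁⟩ := hcon
  have hcont : ContinuousOn u (Icc 0 1) := fun t ht => (hd t ht).continuousAt.continuousWithinAt
  -- the set of bad times
  set S : Set ℝ := {t ∈ Icc (0 : ℝ) 1 | ‖u t‖ ≤ m} with hS
  have hSclosed : IsClosed S := by
    have : S = Icc (0 : ℝ) 1 ∩ (fun t => ‖u t‖) ⁻¹' (Iic m) := by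
      ext t; simp [hS]
    rw [this]
    exact hcont.norm.preimage_isClosed_of_isClosed isClosed_Icc isClosed_Iic
  have hScomp : IsCompact S := isCompact_Icc.of_isClosed_subset hSclosed (fun t ht => ht.1)
  have hSne : S.Nonempty := ⟨t₁, ht₁, hut₁⟩
  obtain ⟨T, hTS, hTmin⟩ := hScomp.exists_isLeast hSne
  have hTI : T ∈ Icc (0 : ℝ) 1 := hTS.1
  have hbefore : ∀ t, 0 ≤ t → t < T → m < ‖u t‖ := by
    intro t ht0 htT
    by_contra hle
    push Not at hle
    have : t ∈ S := ⟨⟨ht0, by linarith [hTI.2]⟩, hle⟩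
    exact absurd (hTmin this) (by linarith)
  have hexp : 1 ≤ Real.exp K := Real.one_le_exp hK
  have hT0 : 0 < T := by
    rcases hTI.1.lt_or_eq with h | h
    · exact h
    · exfalso
      have h1 : ‖u T‖ ≤ m := hTS.2
      rw [← h] at h1
      nlinarith
  have hTm : m ≤ ‖u T‖ := by
    have hct : ContinuousWithinAt (fun t => ‖u t‖) (Iio T) T :=
      ((hd T hTI).continuousAt.norm).continuousWithinAt
    have hne : (𝓝[<] T).NeBot := nhdsWithin_Iio_neBot le_rfl
    refine ge_of_tendsto hct ?_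
    have hmem : Ioo 0 T ∈ 𝓝[<] T := Ioo_mem_nhdsLT hT0
    filter_upwards [hmem] with t ht
    exact (hbefore t ht.1.le ht.2).le
  -- reversed function
  have hrev := norm_le_gronwallBound_of_norm_deriv_right_le (f := fun s => u (T - s))
    (f' := fun s => -(u' (T - s))) (δ := m) (K := K) (ε := 0) (a := 0) (b := T)
    (by
      intro s hs
      have h1 : T - s ∈ Icc (0 : ℝ) 1 := ⟨by linarith [hs.2], by linarith [hs.1, hTI.2]⟩
      have h2 : HasDerivAt (fun s : ℝ => u (T - s)) (-(u' (T - s))) s := by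
        exact HasDerivAt.comp_const_sub T s (hd (T - s) h1)
      exact h2.continuousAt.continuousWithinAt)
    (by
      intro s hs
      have h1 : T - s ∈ Icc (0 : ℝ) 1 := ⟨by linarith [hs.2], by linarith [hs.1, hTI.2]⟩
      have h2 : HasDerivAt (fun s : ℝ => u (T - s)) (-(u' (T - s))) s := by
        exact HasDerivAt.comp_const_sub T s (hd (T - s) h1)
      exact h2.hasDerivWithinAt)
    (by simpa using hTS.2)
    (by
      intro s hs
      have h1 : T - s ∈ Icc (0 : ℝ) 1 := ⟨by linarith [hs.2], by linarith [hs.1, hTI.2]⟩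
      have h3 : m ≤ ‖u (T - s)‖ := by
        rcases hs.1.lt_or_eq with h | h
        · exact (hbefore (T - s) (by linarith [hs.2]) (by linarith)).le
        · rw [← h]; simpa using hTm
      rw [norm_neg]
      simpa using hb _ h1 h3) T ⟨hT0.le, le_rfl⟩
  simp only [sub_self, sub_zero, gronwallBound_ε0] at hrev
  have h5 : Real.exp (K * T) ≤ Real.exp K := Real.exp_le_exp.2 (by nlinarith [hTI.2])
  have h6 : m * Real.exp (K * T) ≤ m * Real.exp K := by gcongr
  linarith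

/-- Persistence of largeness along a segment of a convex set. -/
theorem persist_segment {G G' : ℂ → ℂ} {S : Set ℂ} (hS : Convex ℝ S) {K m l : ℝ} (hm : 0 < m)
    (hK : 0 ≤ K)
    (hd : ∀ z ∈ S, HasDerivAt G (G' z) z) (hb : ∀ z ∈ S, m ≤ ‖G z‖ → ‖G' z‖ ≤ K * ‖G z‖)
    {p q : ℂ} (hp : p ∈ S) (hq : q ∈ S) (hpq : ‖q - p‖ ≤ l)
    (h0 : m * Real.exp (K * l) < ‖G p‖) : m < ‖G q‖ := by
  have hl : 0 ≤ l := (norm_nonneg _).trans hpq
  have hmem : ∀ t ∈ Icc (0 : ℝ) 1, p + (t : ℂ) * (q - p) ∈ S := by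
    intro t ht
    have := hS.add_smul_sub_mem hp hq ht
    simpa using this
  have hd' : ∀ t ∈ Icc (0 : ℝ) 1,
      HasDerivAt (fun t : ℝ => G (p + (t : ℂ) * (q - p)))
        (G' (p + (t : ℂ) * (q - p)) * (q - p)) t := by
    intro t ht
    have h1 : HasDerivAt (fun t : ℝ => p + (t : ℂ) * (q - p)) (q - p) t := by
      have := ((Complex.ofRealCLM.hasDerivAt (x := t)).mul_const (q - p)).const_add p
      simpa using this
    exact (hd _ (hmem t ht)).comp t h1
  have := ode_persist (u := fun t : ℝ => G (p + (t : ℂ) * (q - p)))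
    (u' := fun t : ℝ => G' (p + (t : ℂ) * (q - p)) * (q - p)) (K := K * l) (m := m) hm
    (by positivity) hd'
    (by
      intro t ht hmt
      rw [norm_mul]
      have h2 := hb _ (hmem t ht) hmt
      calc ‖G' (p + (t : ℂ) * (q - p))‖ * ‖q - p‖
          ≤ (K * ‖G (p + (t : ℂ) * (q - p))‖) * l := by gcongr
        _ = K * l * ‖G (p + (t : ℂ) * (q - p))‖ := by ring)
    (by simpa using h0) 1 (by simp)
  simpa using this

/-- Exponential growth bound along a segment of a convex set. -/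
theorem growth_segment {G G' : ℂ → ℂ} {S : Set ℂ} (hS : Convex ℝ S) {K l : ℝ}
    (hK : 0 ≤ K)
    (hd : ∀ z ∈ S, HasDerivAt G (G' z) z) (hb : ∀ z ∈ S, ‖G' z‖ ≤ K * ‖G z‖)
    {p q : ℂ} (hp : p ∈ S) (hq : q ∈ S) (hpq : ‖q - p‖ ≤ l) :
    ‖G q‖ ≤ ‖G p‖ * Real.exp (K * l) := by
  have hl : 0 ≤ l := (norm_nonneg _).trans hpq
  have hmem : ∀ t ∈ Icc (0 : ℝ) 1, p + (t : ℂ) * (q - p) ∈ S := by
    intro t ht
    have := hS.add_smul_sub_mem hp hq ht
    simpa using this
  have hd' : ∀ t ∈ Icc (0 : ℝ) 1,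
      HasDerivAt (fun t : ℝ => G (p + (t : ℂ) * (q - p)))
        (G' (p + (t : ℂ) * (q - p)) * (q - p)) t := by
    intro t ht
    have h1 : HasDerivAt (fun t : ℝ => p + (t : ℂ) * (q - p)) (q - p) t := by
      have := ((Complex.ofRealCLM.hasDerivAt (x := t)).mul_const (q - p)).const_add p
      simpa using this
    exact (hd _ (hmem t ht)).comp t h1
  have := gronwall_unit (u := fun t : ℝ => G (p + (t : ℂ) * (q - p)))
    (u' := fun t : ℝ => G' (p + (t : ℂ) * (q - p)) * (q - p)) (K := K * l) hd'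
    (by
      intro t ht
      rw [norm_mul]
      have h2 := hb _ (hmem t ht)
      calc ‖G' (p + (t : ℂ) * (q - p))‖ * ‖q - p‖
          ≤ (K * ‖G (p + (t : ℂ) * (q - p))‖) * l := by gcongr
        _ = K * l * ‖G (p + (t : ℂ) * (q - p))‖ := by ring)
  simpa using this

/-- Maximum principle on a disc centred at the origin. -/
theorem max_disc {G : ℂ → ℂ} {r C : ℝ} (hr : 0 < r)
    (hd : ∀ z, ‖z‖ ≤ r → DifferentiableAt ℂ G z) (hC : ∀ z, ‖z‖ = r → ‖G z‖ ≤ C) :
    ∀ z, ‖z‖ ≤ r → ‖G z‖ ≤ C := by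
  intro z hz
  have h1 : DiffContOnCl ℂ G (ball 0 r) := by
    apply DifferentiableOn.diffContOnCl
    rw [closure_ball (0 : ℂ) hr.ne']
    intro w hw
    exact (hd w (by simpa using hw)).differentiableWithinAt
  refine Complex.norm_le_of_forall_mem_frontier_norm_le isBounded_ball h1 ?_ ?_
  · intro w hw
    rw [frontier_ball (0 : ℂ) hr.ne'] at hw
    exact hC w (by simpa using hw)
  · rw [closure_ball (0 : ℂ) hr.ne']
    simpa using hz

/-- Minimum principle on a disc centred at the origin, for zero-free functions. -/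
theorem min_disc {G : ℂ → ℂ} {r κ : ℝ} (hr : 0 < r) (hκ : 0 < κ)
    (hd : ∀ z, ‖z‖ ≤ r → DifferentiableAt ℂ G z) (hne : ∀ z, ‖z‖ ≤ r → G z ≠ 0)
    (hC : ∀ z, ‖z‖ = r → κ ≤ ‖G z‖) :
    ∀ z, ‖z‖ ≤ r → κ ≤ ‖G z‖ := by
  intro z hz
  have h := max_disc (G := fun z => (G z)⁻¹) (r := r) (C := κ⁻¹) hr
    (fun w hw => (hd w hw).inv (hne w hw))
    (fun w hw => by
      rw [norm_inv]
      exact inv_anti₀ hκ (hC w hw)) z hz
  rw [norm_inv] at h
  have hpos : 0 < ‖G z‖ := norm_pos_iff.2 (hne z hz)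
  exact (inv_le_inv₀ hpos hκ).1 h

end Pool.Agent.Lib.MP_c40ba2_an
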