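import Mathlib
import Pool.Agent.Lib.MP_c40ba2_an.Montel
import Pool.Agent.Lib.MP_c40ba2_an.Ode

set_option autoImplicit false
open Filter Metric Set Topology

namespace Pool.Agent.Lib.MP_c40ba2_an

/-- A zero-free holomorphic function `h` of two variables on the bidisc `‖z‖ < r, ‖v‖ < s` with
logarithmic derivatives `X = h_z / h`, `Y = h_v / h`, satisfying `h_zv = a h_z + c h_v`. -/
structure Dat (r s : ℝ) (h X Y a c : ℂ → ℂ → ℂ) : Prop where
  ne : ∀ z v, ‖z‖ < r → ‖v‖ < s → h z v ≠ 0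
  hz : ∀ z v, ‖z‖ < r → ‖v‖ < s → HasDerivAt (fun w => h w v) (X z v * h z v) z
  hv : ∀ z v, ‖z‖ < r → ‖v‖ < s → HasDerivAt (fun w => h z w) (Y z v * h z v) v
  Xv : ∀ z v, ‖z‖ < r → ‖v‖ < s → HasDerivAt (fun w => X z w)
    (-(X z v * Y z v) + a z v * X z v + c z v * Y z v) v
  Yz : ∀ z v, ‖z‖ < r → ‖v‖ < s → HasDerivAt (fun w => Y w v)
    (-(X z v * Y z v) + a z v * X z v + c z v * Y z v) z
  Xz : ∀ z v, ‖z‖ < r → ‖v‖ < s → DifferentiableAt ℂ (fun w => X w v) z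
  Yv : ∀ z v, ‖z‖ < r → ‖v‖ < s → DifferentiableAt ℂ (fun w => Y z w) v
  Xc : ContinuousOn (fun p : ℂ × ℂ => X p.1 p.2) (ball 0 r ×ˢ ball 0 s)
  Yc : ContinuousOn (fun p : ℂ × ℂ => Y p.1 p.2) (ball 0 r ×ˢ ball 0 s)

theorem Dat.swap {r s : ℝ} {h X Y a c : ℂ → ℂ → ℂ} (D : Dat r s h X Y a c) :
    Dat s r (fun z v => h v z) (fun z v => Y v z) (fun z v => X v z) (fun z v => c v z)
      (fun z v => a v z) where
  ne := fun z v hz hv => D.ne v z hv hz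
  hz := fun z v hz hv => D.hv v z hv hz
  hv := fun z v hz hv => D.hz v z hv hz
  Xv := fun z v hz hv => by
    have := D.Yz v z hv hz
    convert this using 1
    ring
  Yz := fun z v hz hv => by
    have := D.Xv v z hv hz
    convert this using 1
    ring
  Xz := fun z v hz hv => D.Yv v z hv hz
  Yv := fun z v hz hv => D.Xz v z hv hz
  Xc := by
    have h1 : ContinuousOn (fun p : ℂ × ℂ => (p.2, p.1)) (ball (0 : ℂ) s ×ˢ ball (0 : ℂ) r) :=
      (continuous_snd.prodMk continuous_fst).continuousOn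
    exact D.Yc.comp h1 (fun p hp => ⟨hp.2, hp.1⟩)
  Yc := by
    have h1 : ContinuousOn (fun p : ℂ × ℂ => (p.2, p.1)) (ball (0 : ℂ) s ×ˢ ball (0 : ℂ) r) :=
      (continuous_snd.prodMk continuous_fst).continuousOn
    exact D.Xc.comp h1 (fun p hp => ⟨hp.2, hp.1⟩)

/-- Rescaled data: normalised at the origin, with `min (‖X‖, ‖Y‖) ≤ 2` and small coefficients. -/
structure Good (N ε : ℝ) (h X Y a c : ℂ → ℂ → ℂ) : Prop where
  dat : Dat N N h X Y a c
  h0 : h 0 0 = 1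
  X0 : ‖X 0 0‖ = 1
  Y0 : ‖Y 0 0‖ = 1
  alt : ∀ z v, ‖z‖ < N → ‖v‖ < N → ‖X z v‖ ≤ 2 ∨ ‖Y z v‖ ≤ 2
  ha : ∀ z v, ‖z‖ < N → ‖v‖ < N → ‖a z v‖ ≤ ε
  hc : ∀ z v, ‖z‖ < N → ‖v‖ < N → ‖c z v‖ ≤ ε

theorem Good.swap {N ε : ℝ} {h X Y a c : ℂ → ℂ → ℂ} (G : Good N ε h X Y a c) :
    Good N ε (fun z v => h v z) (fun z v => Y v z) (fun z v => X v z) (fun z v => c v z)
      (fun z v => a v z) where
  dat := G.dat.swap
  h0 := G.h0
  X0 := G.Y0
  Y0 := G.X0
  alt := fun z v hz hv => (G.alt v z hv hz).symm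
  ha := fun z v hz hv => G.hc v z hv hz
  hc := fun z v hz hv => G.ha v z hv hz

/-- Persistence of a large `X` in the `v` direction. -/
theorem Good.persistX {N ε R m : ℝ} {h X Y a c : ℂ → ℂ → ℂ} (G : Good N ε h X Y a c)
    (hε : ε ≤ 1 / 2) (hRN : R < N) (hm : 3 ≤ m) {z v w : ℂ} (hz : ‖z‖ ≤ R) (hv : ‖v‖ ≤ R)
    (hw : ‖w‖ ≤ R) (hX : m * Real.exp (6 * R) < ‖X z v‖) : m < ‖X z w‖ := by
  have hzN : ‖z‖ < N := hz.trans_lt hRN
  have hR0 : 0 ≤ R := (norm_nonneg _).trans hz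
  refine persist_segment (G := fun w => X z w)
    (G' := fun v => -(X z v * Y z v) + a z v * X z v + c z v * Y z v)
    (S := closedBall 0 R) (convex_closedBall 0 R) (K := 3) (m := m) (l := 2 * R)
    (by linarith) (by norm_num) ?_ ?_ (p := v) (q := w) (by simpa using hv) (by simpa using hw) ?_ ?_
  · intro x hx
    exact G.dat.Xv z x hzN (lt_of_le_of_lt (by simpa using hx) hRN)
  · intro x hx hmx
    have hxN : ‖x‖ < N := lt_of_le_of_lt (by simpa using hx) hRN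
    have hmx' : m ≤ ‖X z x‖ := hmx
    have hY : ‖Y z x‖ ≤ 2 := by
      rcases G.alt z x hzN hxN with h1 | h1
      · linarith
      · exact h1
    have hav := G.ha z x hzN hxN
    have hcv := G.hc z x hzN hxN
    have hXn := norm_nonneg (X z x)
    have hYn := norm_nonneg (Y z x)
    calc ‖-(X z x * Y z x) + a z x * X z x + c z x * Y z x‖
        ≤ ‖X z x‖ * ‖Y z x‖ + ‖a z x‖ * ‖X z x‖ + ‖c z x‖ * ‖Y z x‖ := by
          refine (norm_add_le _ _).trans ?_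
          refine add_le_add ((norm_add_le _ _).trans ?_) (by rw [norm_mul])
          rw [norm_neg, norm_mul, norm_mul]
      _ ≤ ‖X z x‖ * 2 + (1 / 2) * ‖X z x‖ + (1 / 2) * 2 := by
          gcongr
          · linarith
          · linarith
      _ ≤ 3 * ‖X z x‖ := by linarith
  · calc ‖w - v‖ ≤ ‖w‖ + ‖v‖ := norm_sub_le _ _
      _ ≤ 2 * R := by linarith
  · have : (3 : ℝ) * (2 * R) = 6 * R := by ring
    rw [this]; exact hX

/-- On each polydisc either `X` or `Y` is bounded by an absolute constant. -/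
theorem Good.alternative {N ε R : ℝ} {h X Y a c : ℂ → ℂ → ℂ} (G : Good N ε h X Y a c)
    (hε : ε ≤ 1 / 2) (hRN : R < N) :
    (∀ z v, ‖z‖ ≤ R → ‖v‖ ≤ R → ‖X z v‖ ≤ 3 * Real.exp (6 * R)) ∨
    (∀ z v, ‖z‖ ≤ R → ‖v‖ ≤ R → ‖Y z v‖ ≤ 3 * Real.exp (6 * R)) := by
  by_contra hcon
  push Not at hcon
  obtain ⟨⟨z₁, v₁, hz₁, hv₁, h1⟩, z₂, v₂, hz₂, hv₂, h2⟩ := hcon
  have hA : 3 < ‖X z₁ v₂‖ := G.persistX hε hRN le_rfl hz₁ hv₁ hv₂ h1
  have hB : 3 < ‖Y z₁ v₂‖ := G.swap.persistX hε hRN le_rfl hv₂ hz₂ hz₁ h2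
  rcases G.alt z₁ v₂ (hz₁.trans_lt hRN) (hv₂.trans_lt hRN) with h3 | h3 <;> linarith

theorem Good.bounded_of_Y {R : ℝ} (hR : 0 < R) : ∃ C ε₀ : ℝ, 0 < ε₀ ∧ ε₀ ≤ 1 / 2 ∧ 0 < C ∧
    ∀ (N ε : ℝ) (h X Y a c : ℂ → ℂ → ℂ), Good N ε h X Y a c → R < N → ε ≤ ε₀ →
    (∀ z v, ‖z‖ ≤ R → ‖v‖ ≤ R → ‖Y z v‖ ≤ 3 * Real.exp (6 * R)) →
    ∀ z v, ‖z‖ ≤ R / 2 → ‖v‖ ≤ R → ‖X z v‖ ≤ C := by
  set L : ℝ := 3 * Real.exp (6 * R) with hL
  have hLpos : 0 < L := by positivity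
  obtain ⟨m₀, hm₀, hmin⟩ := min_modulus (R₁ := R / 2) (R₂ := 3 * R / 4) (R := R) (L := L) (δ := 1)
    (by linarith) (by linarith) (by linarith) one_pos
  set C₁ : ℝ := (8 * L / R + L) / (m₀ / 2) with hC₁
  set m : ℝ := max 3 C₁ with hm
  refine ⟨m * Real.exp (6 * R), min (1 / 2) (m₀ / 2), by positivity, min_le_left _ _, by positivity, ?_⟩
  intro N ε h X Y a c G hRN hε hY z v hz hv
  have hε1 : ε ≤ 1 / 2 := hε.trans (min_le_left _ _)
  have hε2 : ε ≤ m₀ / 2 := hε.trans (min_le_right _ _)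
  have hN0 : 0 < N := hR.trans hRN
  have h0N : ‖(0 : ℂ)‖ < N := by simpa using hN0
  have hε0 : 0 ≤ ε := (norm_nonneg _).trans (G.ha 0 0 h0N h0N)
  -- the function y = Y(·, 0)
  have hyd : DifferentiableOn ℂ (fun w => Y w 0) (ball 0 R) := by
    intro w hw
    have hw' : ‖w‖ < N := by
      have : ‖w‖ < R := by simpa using hw
      linarith
    exact (G.dat.Yz w 0 hw' h0N).differentiableAt.differentiableWithinAt
  obtain ⟨r, hr1, hr2, hrm⟩ := hmin (fun w => Y w 0) hyd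
    (fun w hw => hY w 0 hw.le (by simpa using hR.le)) (le_of_eq G.Y0.symm)
  have hr0 : 0 < r := by linarith
  -- bound on X(·,0) on the circle
  have hcirc : ∀ w, ‖w‖ = r → ‖X w 0‖ ≤ C₁ := by
    intro w hw
    have hwR : ‖w‖ < R := by rw [hw]; linarith
    have hwN : ‖w‖ < N := by linarith
    have hder := G.dat.Yz w 0 hwN h0N
    have hdb : ‖deriv (fun w => Y w 0) w‖ ≤ L / (R / 8) := by
      apply Complex.norm_deriv_le_of_forall_mem_sphere_norm_le (by linarith)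
      · apply DifferentiableOn.diffContOnCl
        apply hyd.mono
        rw [closure_ball _ (by linarith : R / 8 ≠ 0)]
        intro x hx
        have h1 : ‖x - w‖ ≤ R / 8 := by simpa [dist_eq_norm] using hx
        have h2 : ‖x‖ ≤ ‖x - w‖ + ‖w‖ := by
          calc ‖x‖ = ‖(x - w) + w‖ := by ring_nf
            _ ≤ _ := norm_add_le _ _
        have : ‖x‖ < R := by rw [hw] at h2; linarith
        simpa using this
      · intro x hx
        have h1 : ‖x - w‖ = R / 8 := by simpa [dist_eq_norm] using hx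
        have h2 : ‖x‖ ≤ ‖x - w‖ + ‖w‖ := by
          calc ‖x‖ = ‖(x - w) + w‖ := by ring_nf
            _ ≤ _ := norm_add_le _ _
        have : ‖x‖ ≤ R := by rw [hw] at h2; linarith
        exact hY x 0 this (by simpa using hR.le)
    rw [hder.deriv] at hdb
    have hYw : ‖Y w 0‖ ≤ L := hY w 0 hwR.le (by simpa using hR.le)
    have haw := G.ha w 0 hwN h0N
    have hcw := G.hc w 0 hwN h0N
    have hmw : m₀ ≤ ‖Y w 0‖ := hrm w hw
    -- X (Y - a) = -(Y_z) + c Y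
    have hident : X w 0 * (Y w 0 - a w 0) =
        -(-(X w 0 * Y w 0) + a w 0 * X w 0 + c w 0 * Y w 0) + c w 0 * Y w 0 := by ring
    have h3 : ‖X w 0‖ * (m₀ / 2) ≤ 8 * L / R + L := by
      calc ‖X w 0‖ * (m₀ / 2) ≤ ‖X w 0‖ * ‖Y w 0 - a w 0‖ := by
            gcongr
            have := norm_sub_norm_le (Y w 0) (a w 0)
            linarith
        _ = ‖X w 0 * (Y w 0 - a w 0)‖ := by rw [norm_mul]
        _ ≤ ‖-(X w 0 * Y w 0) + a w 0 * X w 0 + c w 0 * Y w 0‖ + ‖c w 0‖ * ‖Y w 0‖ := by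
            rw [hident]
            refine (norm_add_le _ _).trans ?_
            rw [norm_neg, norm_mul]
        _ ≤ L / (R / 8) + 1 * L := by
            gcongr
            linarith
        _ = 8 * L / R + L := by field_simp
    rw [hC₁, le_div_iff₀ (by positivity)]
    exact h3
  have hdisc : ∀ w, ‖w‖ ≤ r → ‖X w 0‖ ≤ C₁ := by
    apply max_disc hr0 _ hcirc
    intro w hw
    exact G.dat.Xz w 0 (by linarith) h0N
  by_contra hlarge
  push Not at hlarge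
  have h4 := G.persistX hε1 hRN (le_max_left 3 C₁) (by linarith : ‖z‖ ≤ R) hv
    (by simpa using hR.le : ‖(0 : ℂ)‖ ≤ R) hlarge
  have h5 := hdisc z (by linarith)
  have h6 : C₁ ≤ m := le_max_right _ _
  linarith

/-- Both logarithmic derivatives are locally bounded, for small coefficients. -/
theorem Good.bounded {R : ℝ} (hR : 0 < R) : ∃ C ε₀ : ℝ, 0 < ε₀ ∧ ε₀ ≤ 1 / 2 ∧ 0 < C ∧
    ∀ (N ε : ℝ) (h X Y a c : ℂ → ℂ → ℂ), Good N ε h X Y a c → R < N → ε ≤ ε₀ →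
    ∀ z v, ‖z‖ ≤ R / 2 → ‖v‖ ≤ R / 2 → ‖X z v‖ ≤ C ∧ ‖Y z v‖ ≤ C := by
  obtain ⟨C, ε₀, hε₀, hε₀', hC, H⟩ := Good.bounded_of_Y hR
  refine ⟨max C (3 * Real.exp (6 * R)), ε₀, hε₀, hε₀', lt_max_of_lt_left hC, ?_⟩
  intro N ε h X Y a c G hRN hε z v hz hv
  rcases G.alternative (hε.trans hε₀') hRN with hX | hY
  · have h1 := H N ε _ _ _ _ _ G.swap hRN hε (fun z v hz hv => hX v z hv hz) v z hv (by linarith)
    exact ⟨(hX z v (by linarith) (by linarith)).trans (le_max_right _ _), h1.trans (le_max_left _ _)⟩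
  · have h1 := H N ε _ _ _ _ _ G hRN hε hY z v hz (by linarith)
    exact ⟨h1.trans (le_max_left _ _), (hY z v (by linarith) (by linarith)).trans (le_max_right _ _)⟩

end Pool.Agent.Lib.MP_c40ba2_an
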