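import Mathlib
import Pool.Agent.Lib.MP_c40ba2_an.MinThm

set_option autoImplicit false
open Filter Metric Set Topology

namespace Pool.Agent.Lib.MP_c40ba2_an

/-- Second order Taylor bound. -/
theorem taylor_two {g : ℂ → ℂ} {M : ℝ} (hg : ∀ z, ‖z‖ ≤ 1 → DifferentiableAt ℂ g z)
    (hM : ∀ z, ‖z‖ ≤ 1 → ‖g z‖ ≤ M) {w : ℂ} (hw : ‖w‖ ≤ 1 / 4) :
    ‖g w - (g 0 + deriv g 0 * w)‖ ≤ 8 * M * ‖w‖ ^ 2 := by
  have hd : DifferentiableOn ℂ g (ball 0 1) := fun z hz =>
    (hg z (le_of_lt (by simpa using hz))).differentiableWithinAt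
  have hs := hasSum_taylor hd (z := w) (by linarith)
  have hc : ∀ n : ℕ, ‖iteratedDeriv n g 0 / (n.factorial : ℂ)‖ ≤ M / (1 / 2) ^ n := fun n =>
    norm_taylor_le hd (by norm_num) (by norm_num) (fun z hz => hM z (by linarith)) n
  have hs2 := (hasSum_nat_add_iff' 2).2 hs
  have hM0 : 0 ≤ M := (norm_nonneg _).trans (hM 0 (by simp))
  have e1 : ∑ i ∈ Finset.range 2, iteratedDeriv i g 0 / (i.factorial : ℂ) * w ^ i =
      g 0 + deriv g 0 * w := by
    simp [Finset.sum_range_succ, iteratedDeriv_one]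
  rw [e1] at hs2
  have hb : ∀ n : ℕ, ‖iteratedDeriv (n + 2) g 0 / ((n + 2).factorial : ℂ) * w ^ (n + 2)‖ ≤
      4 * M * ‖w‖ ^ 2 * (1 / 2) ^ n := by
    intro n
    rw [norm_mul, norm_pow]
    have h1 : ‖w‖ ^ n ≤ (1 / 4) ^ n := by gcongr
    calc ‖iteratedDeriv (n + 2) g 0 / ((n + 2).factorial : ℂ)‖ * ‖w‖ ^ (n + 2)
        ≤ (M / (1 / 2) ^ (n + 2)) * ‖w‖ ^ (n + 2) := by gcongr; exact hc (n + 2)
      _ = 4 * M * ‖w‖ ^ 2 * (2 ^ n * ‖w‖ ^ n) := by
          rw [pow_add, pow_add]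
          have : ((1 : ℝ) / 2) ^ n = 1 / 2 ^ n := by rw [div_pow, one_pow]
          rw [this]
          field_simp
          ring
      _ ≤ 4 * M * ‖w‖ ^ 2 * (2 ^ n * (1 / 4) ^ n) := by gcongr
      _ = 4 * M * ‖w‖ ^ 2 * (1 / 2) ^ n := by
          rw [← mul_pow]; norm_num
  have hgeo : HasSum (fun n : ℕ => 4 * M * ‖w‖ ^ 2 * (1 / 2 : ℝ) ^ n) (4 * M * ‖w‖ ^ 2 * 2) :=
    hasSum_geometric_two.mul_left _
  calc ‖g w - (g 0 + deriv g 0 * w)‖
      = ‖∑' n : ℕ, iteratedDeriv (n + 2) g 0 / ((n + 2).factorial : ℂ) * w ^ (n + 2)‖ := by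
        rw [hs2.tsum_eq]
    _ ≤ 4 * M * ‖w‖ ^ 2 * 2 := tsum_of_norm_bounded hgeo hb
    _ = 8 * M * ‖w‖ ^ 2 := by ring

/-- For large radius and small coefficients there are no normalised data. -/
theorem Good.false : ∃ R ε₁ : ℝ, 0 < R ∧ 0 < ε₁ ∧
    ∀ (N ε : ℝ) (h X Y a c : ℂ → ℂ → ℂ), Good N ε h X Y a c → R < N → ε ≤ ε₁ → False := by
  obtain ⟨C₁, εa, hεa, hεa', hC₁, H1⟩ := Good.bounded (R := 2) (by norm_num)
  set M : ℝ := Real.exp C₁ with hM
  have hM1 : 1 ≤ M := Real.one_le_exp hC₁.le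
  set r₁ : ℝ := 1 / (16 * M) with hr₁
  have hr₁pos : 0 < r₁ := by positivity
  have hr₁le : r₁ ≤ 1 / 16 := by
    rw [hr₁]
    apply one_div_le_one_div_of_le (by norm_num)
    linarith
  set R' : ℝ := 16 / r₁ with hR'
  have hR'pos : 0 < R' := by positivity
  have hR'1 : 1 ≤ R' := by
    rw [hR', le_div_iff₀ hr₁pos]; linarith
  obtain ⟨C₂, εb, hεb, hεb', hC₂, H2⟩ := Good.bounded (R := 2 * R') (by linarith)
  set Q : ℝ := R' * (2 * C₂ * Real.exp (2 * (C₂ * R'))) with hQ
  have hQpos : 0 < Q := by positivity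
  refine ⟨2 * R' + 2, min (min εa εb) (r₁ / (4 * Q)), by positivity, by positivity, ?_⟩
  intro N ε h X Y a c G hRN hε
  have hε1 : ε ≤ εa := hε.trans ((min_le_left _ _).trans (min_le_left _ _))
  have hε2 : ε ≤ εb := hε.trans ((min_le_left _ _).trans (min_le_right _ _))
  have hε3 : ε ≤ r₁ / (4 * Q) := hε.trans (min_le_right _ _)
  have hN0 : 0 < N := by linarith
  have h0N : ‖(0 : ℂ)‖ < N := by simpa using hN0
  have hε0 : 0 ≤ ε := (norm_nonneg _).trans (G.ha 0 0 h0N h0N)
  have B1 : ∀ z v, ‖z‖ ≤ 1 → ‖v‖ ≤ 1 → ‖X z v‖ ≤ C₁ ∧ ‖Y z v‖ ≤ C₁ := by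
    intro z v hz hv
    exact H1 N ε h X Y a c G (by linarith) hε1 z v (by linarith) (by linarith)
  have B2 : ∀ z v, ‖z‖ ≤ R' → ‖v‖ ≤ R' → ‖X z v‖ ≤ C₂ ∧ ‖Y z v‖ ≤ C₂ := by
    intro z v hz hv
    exact H2 N ε h X Y a c G (by linarith) hε2 z v (by linarith) (by linarith)
  -- bound for g = h(0,·) on the unit disc
  have hgM : ∀ v, ‖v‖ ≤ 1 → ‖h 0 v‖ ≤ M := by
    intro v hv
    have := growth_segment (G := fun w => h 0 w) (G' := fun v => Y 0 v * h 0 v)
      (S := closedBall 0 1) (convex_closedBall 0 1) (K := C₁) (l := 1) hC₁.le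
      (fun x hx => G.dat.hv 0 x h0N (by
        have : ‖x‖ ≤ 1 := by simpa using hx
        linarith))
      (fun x hx => by
        rw [norm_mul]
        gcongr
        exact (B1 0 x (by simp) (by simpa using hx)).2)
      (p := 0) (q := v) (by simp) (by simpa using hv) (by simpa using hv)
    simpa [G.h0] using this
  -- lower bound for |g - 1| on the circle of radius r₁
  have hglow : ∀ v, ‖v‖ = r₁ → r₁ / 2 ≤ ‖h 0 v - 1‖ := by
    intro v hv
    have ht := taylor_two (g := fun w => h 0 w) (M := M)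
      (fun x hx => (G.dat.hv 0 x h0N (by linarith)).differentiableAt) hgM (w := v)
      (by rw [hv]; linarith)
    have hder : deriv (fun w => h 0 w) 0 = Y 0 0 * h 0 0 := (G.dat.hv 0 0 h0N h0N).deriv
    rw [hder, G.h0, mul_one, hv] at ht
    have h2 : ‖Y 0 0 * v‖ = r₁ := by rw [norm_mul, G.Y0, hv, one_mul]
    have h3 : ‖Y 0 0 * v‖ ≤ ‖h 0 v - 1‖ + ‖h 0 v - (1 + Y 0 0 * v)‖ := by
      have : Y 0 0 * v = (h 0 v - 1) - (h 0 v - (1 + Y 0 0 * v)) := by ring
      calc ‖Y 0 0 * v‖ = ‖(h 0 v - 1) - (h 0 v - (1 + Y 0 0 * v))‖ := by rw [← this]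
        _ ≤ _ := norm_sub_le _ _
    have h4 : 8 * M * r₁ ^ 2 = r₁ / 2 := by
      rw [hr₁]; field_simp; norm_num
    rw [h4] at ht
    rw [h2] at h3
    linarith
  -- bound for h on the polydisc of radius R'
  have hhb : ∀ z v, ‖z‖ ≤ R' → ‖v‖ ≤ R' → ‖h z v‖ ≤ Real.exp (2 * (C₂ * R')) := by
    intro z v hz hv
    have hzN : ‖z‖ < N := by linarith
    have s1 := growth_segment (G := fun w => h w 0) (G' := fun z => X z 0 * h z 0)
      (S := closedBall 0 R') (convex_closedBall 0 R') (K := C₂) (l := R') hC₂.le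
      (fun x hx => G.dat.hz x 0 (by
        have : ‖x‖ ≤ R' := by simpa using hx
        linarith) h0N)
      (fun x hx => by
        rw [norm_mul]
        gcongr
        exact (B2 x 0 (by simpa using hx) (by simpa using hR'pos.le)).1)
      (p := 0) (q := z) (by simpa using hR'pos.le) (by simpa using hz) (by simpa using hz)
    have s2 := growth_segment (G := fun w => h z w) (G' := fun v => Y z v * h z v)
      (S := closedBall 0 R') (convex_closedBall 0 R') (K := C₂) (l := R') hC₂.le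
      (fun x hx => G.dat.hv z x hzN (by
        have : ‖x‖ ≤ R' := by simpa using hx
        linarith))
      (fun x hx => by
        rw [norm_mul]
        gcongr
        exact (B2 z x hz (by simpa using hx)).2)
      (p := 0) (q := v) (by simpa using hR'pos.le) (by simpa using hv) (by simpa using hv)
    simp only [G.h0, norm_one, one_mul] at s1 s2
    calc ‖h z v‖ ≤ ‖h z 0‖ * Real.exp (C₂ * R') := s2
      _ ≤ Real.exp (C₂ * R') * Real.exp (C₂ * R') := by gcongr
      _ = Real.exp (2 * (C₂ * R')) := by rw [← Real.exp_add]; ring_nf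
  -- the mixed difference is small
  have hE : ∀ z v, ‖z‖ ≤ R' → ‖v‖ ≤ 1 → ‖h z v - h z 0 - (h 0 v - 1)‖ ≤ r₁ / 4 := by
    intro z v hz hv
    have hzN : ‖z‖ < N := by linarith
    -- difference of the v-derivatives
    have hD : ∀ x, ‖x‖ ≤ 1 → ‖Y z x * h z x - Y 0 x * h 0 x‖ ≤ ε * Q := by
      intro x hx
      have hxN : ‖x‖ < N := by linarith
      have hder : ∀ w ∈ closedBall (0 : ℂ) R', HasDerivWithinAt (fun w => Y w x * h w x)
          ((a w x * X w x + c w x * Y w x) * h w x) (closedBall 0 R') w := by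
        intro w hw
        have hwN : ‖w‖ < N := by
          have : ‖w‖ ≤ R' := by simpa using hw
          linarith
        have d1 := (G.dat.Yz w x hwN hxN).mul (G.dat.hz w x hwN hxN)
        have d2 : HasDerivAt (fun w => Y w x * h w x)
            ((a w x * X w x + c w x * Y w x) * h w x) w := by
          exact d1.congr_deriv (by ring)
        exact d2.hasDerivWithinAt
      have hbd : ∀ w ∈ closedBall (0 : ℂ) R', ‖(a w x * X w x + c w x * Y w x) * h w x‖ ≤
          ε * (2 * C₂ * Real.exp (2 * (C₂ * R'))) := by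
        intro w hw
        have hwR : ‖w‖ ≤ R' := by simpa using hw
        have hwN : ‖w‖ < N := by linarith
        have b2 := B2 w x hwR (by linarith)
        have ba := G.ha w x hwN hxN
        have bc := G.hc w x hwN hxN
        have bh := hhb w x hwR (by linarith)
        rw [norm_mul]
        calc ‖a w x * X w x + c w x * Y w x‖ * ‖h w x‖
            ≤ (‖a w x‖ * ‖X w x‖ + ‖c w x‖ * ‖Y w x‖) * ‖h w x‖ := by
              gcongr
              refine (norm_add_le _ _).trans ?_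
              rw [norm_mul, norm_mul]
          _ ≤ (ε * C₂ + ε * C₂) * Real.exp (2 * (C₂ * R')) := by
              gcongr
              · exact b2.1
              · exact b2.2
          _ = _ := by ring
      have := (convex_closedBall (0 : ℂ) R').norm_image_sub_le_of_norm_hasDerivWithin_le hder hbd
        (x := 0) (y := z) (by simpa using hR'pos.le) (by simpa using hz)
      calc ‖Y z x * h z x - Y 0 x * h 0 x‖
          ≤ ε * (2 * C₂ * Real.exp (2 * (C₂ * R'))) * ‖z - 0‖ := this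
        _ ≤ ε * (2 * C₂ * Real.exp (2 * (C₂ * R'))) * R' := by
            gcongr
            simpa using hz
        _ = ε * Q := by rw [hQ]; ring
    have hder2 : ∀ x ∈ closedBall (0 : ℂ) 1, HasDerivWithinAt (fun x => h z x - h 0 x)
        (Y z x * h z x - Y 0 x * h 0 x) (closedBall 0 1) x := by
      intro x hx
      have hxN : ‖x‖ < N := by
        have : ‖x‖ ≤ 1 := by simpa using hx
        linarith
      exact ((G.dat.hv z x hzN hxN).sub (G.dat.hv 0 x h0N hxN)).hasDerivWithinAt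
    have := (convex_closedBall (0 : ℂ) 1).norm_image_sub_le_of_norm_hasDerivWithin_le hder2
      (C := ε * Q) (fun x hx => hD x (by simpa using hx))
      (x := 0) (y := v) (by simp) (by simpa using hv)
    have heq : h z v - h z 0 - (h 0 v - 1) = (h z v - h 0 v) - (h z 0 - h 0 0) := by
      rw [G.h0]; ring
    rw [heq]
    calc ‖h z v - h 0 v - (h z 0 - h 0 0)‖ ≤ ε * Q * ‖v - 0‖ := this
      _ ≤ ε * Q * 1 := by
          gcongr
          simpa using hv
      _ ≤ (r₁ / (4 * Q)) * Q * 1 := by gcongr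
      _ = r₁ / 4 := by field_simp
  -- lower bound for f = h(·,0)
  have hflow : ∀ z, ‖z‖ ≤ R' → r₁ / 8 ≤ ‖h z 0‖ := by
    intro z hz
    have hzN : ‖z‖ < N := by linarith
    by_contra hsmall
    push Not at hsmall
    have hκ : 0 < r₁ / 4 - ‖h z 0‖ := by linarith
    have := min_disc (G := fun w => h z w) (r := r₁) (κ := r₁ / 4 - ‖h z 0‖) hr₁pos hκ
      (fun w hw => (G.dat.hv z w hzN (by linarith)).differentiableAt)
      (fun w hw => G.dat.ne z w hzN (by linarith))
      (fun w hw => by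
        have e1 := hE z w hz (by linarith)
        have e2 := hglow w hw
        have e3 : ‖h 0 w - 1‖ ≤ ‖h z w‖ + ‖h z 0‖ + ‖h z w - h z 0 - (h 0 w - 1)‖ := by
          have : h 0 w - 1 = h z w - h z 0 - (h z w - h z 0 - (h 0 w - 1)) := by ring
          calc ‖h 0 w - 1‖ = ‖h z w - h z 0 - (h z w - h z 0 - (h 0 w - 1))‖ := by rw [← this]
            _ ≤ ‖h z w - h z 0‖ + ‖h z w - h z 0 - (h 0 w - 1)‖ := norm_sub_le _ _
            _ ≤ ‖h z w‖ + ‖h z 0‖ + ‖h z w - h z 0 - (h 0 w - 1)‖ := by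
                gcongr
                exact norm_sub_le _ _
        linarith) 0 (by simpa using hr₁pos.le)
    linarith
  -- Cauchy estimate for 1 / h(·,0)
  have hfin := Complex.norm_deriv_le_of_forall_mem_sphere_norm_le (c := (0 : ℂ)) (R := R')
    (C := 8 / r₁) (f := fun z => (h z 0)⁻¹) hR'pos
    (by
      apply DifferentiableOn.diffContOnCl
      rw [closure_ball (0 : ℂ) hR'pos.ne']
      intro z hz
      have hz' : ‖z‖ < N := by
        have : ‖z‖ ≤ R' := by simpa using hz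
        linarith
      exact ((G.dat.hz z 0 hz' h0N).differentiableAt.inv (G.dat.ne z 0 hz' h0N)).differentiableWithinAt)
    (by
      intro z hz
      have hz' : ‖z‖ = R' := by simpa using hz
      rw [norm_inv]
      have := hflow z hz'.le
      calc ‖h z 0‖⁻¹ ≤ (r₁ / 8)⁻¹ := inv_anti₀ (by positivity) this
        _ = 8 / r₁ := by field_simp)
  have hd0 : HasDerivAt (fun z => (h z 0)⁻¹) (-(X 0 0 * h 0 0) / (h 0 0) ^ 2) 0 :=
    (G.dat.hz 0 0 h0N h0N).inv (G.dat.ne 0 0 h0N h0N)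
  rw [hd0.deriv, G.h0] at hfin
  have h7 : ‖-(X 0 0 * 1) / (1 : ℂ) ^ 2‖ = 1 := by
    simp [G.X0]
  rw [h7] at hfin
  have h8 : 8 / r₁ / R' = 1 / 2 := by
    rw [hR']; field_simp; norm_num
  rw [h8] at hfin
  norm_num at hfin

end Pool.Agent.Lib.MP_c40ba2_an
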