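import Mathlib
import Pool.Agent.Lib.MP_c40ba2_an.MinThm2

set_option autoImplicit false
open Filter Metric Set Topology

namespace Pool.Agent.Lib.MP_c40ba2_an

theorem hasDerivAt_affine_comp {G : ℂ → ℂ} {G' b t ζ : ℂ} (hG : HasDerivAt G G' (b + t * ζ)) :
    HasDerivAt (fun w => G (b + t * w)) (G' * t) ζ := by
  have h1 : HasDerivAt (fun w : ℂ => b + t * w) t ζ := by
    simpa using ((hasDerivAt_id ζ).const_mul t).const_add b
  exact hG.comp ζ h1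

/-- Extremal rescaling. -/
theorem Dat.rescale {K M : ℝ} {h X Y a c : ℂ → ℂ → ℂ} (D : Dat 2 2 h X Y a c) (hK : 0 ≤ K)
    (ha : ∀ z v, ‖z‖ < 2 → ‖v‖ < 2 → ‖a z v‖ ≤ K) (hc : ∀ z v, ‖z‖ < 2 → ‖v‖ < 2 → ‖c z v‖ ≤ K)
    (hM : 0 < M) (hX : M < ‖X 0 0‖) (hY : M < ‖Y 0 0‖) :
    ∃ (N' : ℝ) (h' X' Y' a' c' : ℂ → ℂ → ℂ), M < N' ∧ Good (N' / 2) (K / N') h' X' Y' a' c' := by
  -- the functional to be maximised
  set Ψ : ℂ × ℂ → ℝ := fun p => min (‖X p.1 p.2‖ * (1 - ‖p.1‖)) (‖Y p.1 p.2‖ * (1 - ‖p.2‖)) with hΨ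
  have hsub : closedBall (0 : ℂ) 1 ×ˢ closedBall (0 : ℂ) 1 ⊆ ball (0 : ℂ) 2 ×ˢ ball (0 : ℂ) 2 :=
    prod_mono (closedBall_subset_ball (by norm_num)) (closedBall_subset_ball (by norm_num))
  have hcont : ContinuousOn Ψ (closedBall (0 : ℂ) 1 ×ˢ closedBall (0 : ℂ) 1) := by
    have c1 := (D.Xc.mono hsub).norm
    have c2 := (D.Yc.mono hsub).norm
    have c3 : ContinuousOn (fun p : ℂ × ℂ => 1 - ‖p.1‖)
        (closedBall (0 : ℂ) 1 ×ˢ closedBall (0 : ℂ) 1) :=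
      (continuous_const.sub continuous_fst.norm).continuousOn
    have c4 : ContinuousOn (fun p : ℂ × ℂ => 1 - ‖p.2‖)
        (closedBall (0 : ℂ) 1 ×ˢ closedBall (0 : ℂ) 1) :=
      (continuous_const.sub continuous_snd.norm).continuousOn
    exact (c1.mul c3).inf (c2.mul c4)
  have hcomp : IsCompact (closedBall (0 : ℂ) 1 ×ˢ closedBall (0 : ℂ) 1) :=
    (isCompact_closedBall _ _).prod (isCompact_closedBall _ _)
  obtain ⟨⟨z₁, v₁⟩, hp, hmax⟩ := hcomp.exists_isMaxOn ⟨(0, 0), by simp⟩ hcont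
  have hz1 : ‖z₁‖ ≤ 1 := by simpa using hp.1
  have hv1 : ‖v₁‖ ≤ 1 := by simpa using hp.2
  set N' : ℝ := Ψ (z₁, v₁) with hN'
  have hMN : M < N' := by
    have h1 : Ψ (0, 0) ≤ N' := hmax (show ((0 : ℂ), (0 : ℂ)) ∈ _ by simp)
    have h2 : M < Ψ (0, 0) := by simp [hΨ, hX, hY]
    linarith
  have hN'0 : 0 < N' := hM.trans hMN
  set A : ℝ := ‖X z₁ v₁‖ with hA
  set B : ℝ := ‖Y z₁ v₁‖ with hB
  have hNA : N' ≤ A * (1 - ‖z₁‖) := min_le_left _ _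
  have hNB : N' ≤ B * (1 - ‖v₁‖) := min_le_right _ _
  have hA0 : 0 ≤ A := norm_nonneg _
  have hB0 : 0 ≤ B := norm_nonneg _
  have hρ : 0 < 1 - ‖z₁‖ := by
    by_contra hle
    push Not at hle
    nlinarith
  have hσ : 0 < 1 - ‖v₁‖ := by
    by_contra hle
    push Not at hle
    nlinarith
  have hρ1 : 1 - ‖z₁‖ ≤ 1 := by linarith [norm_nonneg z₁]
  have hσ1 : 1 - ‖v₁‖ ≤ 1 := by linarith [norm_nonneg v₁]
  have hAN : N' ≤ A := by nlinarith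
  have hBN : N' ≤ B := by nlinarith
  have hApos : 0 < A := by linarith
  have hBpos : 0 < B := by linarith
  have hAc : (A : ℂ) ≠ 0 := by exact_mod_cast hApos.ne'
  have hBc : (B : ℂ) ≠ 0 := by exact_mod_cast hBpos.ne'
  -- positions
  have hzin : ∀ ζ : ℂ, ‖ζ‖ < N' / 2 → ‖z₁ + (A : ℂ)⁻¹ * ζ‖ < 1 ∧
      (1 - ‖z₁‖) / 2 ≤ 1 - ‖z₁ + (A : ℂ)⁻¹ * ζ‖ := by
    intro ζ hζ
    have h1 : ‖(A : ℂ)⁻¹ * ζ‖ ≤ (1 - ‖z₁‖) / 2 := by
      rw [norm_mul, norm_inv, Complex.norm_real, Real.norm_of_nonneg hA0, inv_mul_le_iff₀ hApos]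
      linarith
    have h2 := norm_add_le z₁ ((A : ℂ)⁻¹ * ζ)
    constructor <;> linarith
  have hvin : ∀ η : ℂ, ‖η‖ < N' / 2 → ‖v₁ + (B : ℂ)⁻¹ * η‖ < 1 ∧
      (1 - ‖v₁‖) / 2 ≤ 1 - ‖v₁ + (B : ℂ)⁻¹ * η‖ := by
    intro ζ hζ
    have h1 : ‖(B : ℂ)⁻¹ * ζ‖ ≤ (1 - ‖v₁‖) / 2 := by
      rw [norm_mul, norm_inv, Complex.norm_real, Real.norm_of_nonneg hB0, inv_mul_le_iff₀ hBpos]
      linarith
    have h2 := norm_add_le v₁ ((B : ℂ)⁻¹ * ζ)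
    constructor <;> linarith
  have hh1 : h z₁ v₁ ≠ 0 := D.ne z₁ v₁ (by linarith) (by linarith)
  refine ⟨N', fun ζ η => h (z₁ + (A : ℂ)⁻¹ * ζ) (v₁ + (B : ℂ)⁻¹ * η) / h z₁ v₁,
    fun ζ η => X (z₁ + (A : ℂ)⁻¹ * ζ) (v₁ + (B : ℂ)⁻¹ * η) * (A : ℂ)⁻¹,
    fun ζ η => Y (z₁ + (A : ℂ)⁻¹ * ζ) (v₁ + (B : ℂ)⁻¹ * η) * (B : ℂ)⁻¹,
    fun ζ η => a (z₁ + (A : ℂ)⁻¹ * ζ) (v₁ + (B : ℂ)⁻¹ * η) * (B : ℂ)⁻¹,
    fun ζ η => c (z₁ + (A : ℂ)⁻¹ * ζ) (v₁ + (B : ℂ)⁻¹ * η) * (A : ℂ)⁻¹, hMN, ?_⟩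
  have hnA : ‖(A : ℂ)⁻¹‖ = A⁻¹ := by
    rw [norm_inv, Complex.norm_real, Real.norm_of_nonneg hA0]
  have hnB : ‖(B : ℂ)⁻¹‖ = B⁻¹ := by
    rw [norm_inv, Complex.norm_real, Real.norm_of_nonneg hB0]
  constructor
  · -- the data
    constructor
    · intro z v hz hv
      exact div_ne_zero (D.ne _ _ (by linarith [(hzin z hz).1]) (by linarith [(hvin v hv).1])) hh1
    · intro z v hz hv
      have := hasDerivAt_affine_comp (D.hz (z₁ + (A : ℂ)⁻¹ * z) (v₁ + (B : ℂ)⁻¹ * v)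
        (by linarith [(hzin z hz).1]) (by linarith [(hvin v hv).1]))
      exact (this.div_const (h z₁ v₁)).congr_deriv (by ring)
    · intro z v hz hv
      have := hasDerivAt_affine_comp (G := fun w => h (z₁ + (A : ℂ)⁻¹ * z) w)
        (D.hv (z₁ + (A : ℂ)⁻¹ * z) (v₁ + (B : ℂ)⁻¹ * v)
        (by linarith [(hzin z hz).1]) (by linarith [(hvin v hv).1]))
      exact (this.div_const (h z₁ v₁)).congr_deriv (by ring)
    · intro z v hz hv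
      have := hasDerivAt_affine_comp (G := fun w => X (z₁ + (A : ℂ)⁻¹ * z) w)
        (D.Xv (z₁ + (A : ℂ)⁻¹ * z) (v₁ + (B : ℂ)⁻¹ * v)
        (by linarith [(hzin z hz).1]) (by linarith [(hvin v hv).1]))
      exact (this.mul_const ((A : ℂ)⁻¹)).congr_deriv (by ring)
    · intro z v hz hv
      have := hasDerivAt_affine_comp (G := fun w => Y w (v₁ + (B : ℂ)⁻¹ * v))
        (D.Yz (z₁ + (A : ℂ)⁻¹ * z) (v₁ + (B : ℂ)⁻¹ * v)
        (by linarith [(hzin z hz).1]) (by linarith [(hvin v hv).1]))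
      exact (this.mul_const ((B : ℂ)⁻¹)).congr_deriv (by ring)
    · intro z v hz hv
      have := hasDerivAt_affine_comp (G := fun w => X w (v₁ + (B : ℂ)⁻¹ * v))
        (D.Xz (z₁ + (A : ℂ)⁻¹ * z) (v₁ + (B : ℂ)⁻¹ * v)
        (by linarith [(hzin z hz).1]) (by linarith [(hvin v hv).1])).hasDerivAt
      exact (this.mul_const ((A : ℂ)⁻¹)).differentiableAt
    · intro z v hz hv
      have := hasDerivAt_affine_comp (G := fun w => Y (z₁ + (A : ℂ)⁻¹ * z) w)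
        (D.Yv (z₁ + (A : ℂ)⁻¹ * z) (v₁ + (B : ℂ)⁻¹ * v)
        (by linarith [(hzin z hz).1]) (by linarith [(hvin v hv).1])).hasDerivAt
      exact (this.mul_const ((B : ℂ)⁻¹)).differentiableAt
    · have h1 : ContinuousOn (fun p : ℂ × ℂ => (z₁ + (A : ℂ)⁻¹ * p.1, v₁ + (B : ℂ)⁻¹ * p.2))
          (ball (0 : ℂ) (N' / 2) ×ˢ ball (0 : ℂ) (N' / 2)) := by
        apply Continuous.continuousOn
        fun_prop
      refine (D.Xc.comp h1 ?_).mul continuousOn_const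
      rintro ⟨z, v⟩ ⟨hz, hv⟩
      have hz' : ‖z‖ < N' / 2 := by simpa using hz
      have hv' : ‖v‖ < N' / 2 := by simpa using hv
      constructor
      · simp only [mem_ball, dist_zero_right]
        linarith [(hzin z hz').1]
      · simp only [mem_ball, dist_zero_right]
        linarith [(hvin v hv').1]
    · have h1 : ContinuousOn (fun p : ℂ × ℂ => (z₁ + (A : ℂ)⁻¹ * p.1, v₁ + (B : ℂ)⁻¹ * p.2))
          (ball (0 : ℂ) (N' / 2) ×ˢ ball (0 : ℂ) (N' / 2)) := by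
        apply Continuous.continuousOn
        fun_prop
      refine (D.Yc.comp h1 ?_).mul continuousOn_const
      rintro ⟨z, v⟩ ⟨hz, hv⟩
      have hz' : ‖z‖ < N' / 2 := by simpa using hz
      have hv' : ‖v‖ < N' / 2 := by simpa using hv
      constructor
      · simp only [mem_ball, dist_zero_right]
        linarith [(hzin z hz').1]
      · simp only [mem_ball, dist_zero_right]
        linarith [(hvin v hv').1]
  · simp [hh1]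
  · simp only [mul_zero, add_zero, norm_mul, hnA, ← hA]
    exact mul_inv_cancel₀ hApos.ne'
  · simp only [mul_zero, add_zero, norm_mul, hnB, ← hB]
    exact mul_inv_cancel₀ hBpos.ne'
  · intro z v hz hv
    obtain ⟨q1, q2⟩ := hzin z hz
    obtain ⟨q3, q4⟩ := hvin v hv
    have hle : Ψ (z₁ + (A : ℂ)⁻¹ * z, v₁ + (B : ℂ)⁻¹ * v) ≤ N' :=
      hmax (show (z₁ + (A : ℂ)⁻¹ * z, v₁ + (B : ℂ)⁻¹ * v) ∈ _ from
        ⟨by simpa using q1.le, by simpa using q3.le⟩)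
    rw [norm_mul, norm_mul, hnA, hnB]
    rcases min_le_iff.1 hle with h5 | h5
    · left
      have h6 : ‖X (z₁ + (A : ℂ)⁻¹ * z) (v₁ + (B : ℂ)⁻¹ * v)‖ * ((1 - ‖z₁‖) / 2) ≤
          A * (1 - ‖z₁‖) := by
        calc _ ≤ ‖X (z₁ + (A : ℂ)⁻¹ * z) (v₁ + (B : ℂ)⁻¹ * v)‖ * (1 - ‖z₁ + (A : ℂ)⁻¹ * z‖) := by
              gcongr
          _ ≤ N' := h5
          _ ≤ _ := hNA
      have h7 : ‖X (z₁ + (A : ℂ)⁻¹ * z) (v₁ + (B : ℂ)⁻¹ * v)‖ ≤ 2 * A := by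
        by_contra hlt
        push Not at hlt
        nlinarith
      rw [← div_eq_mul_inv, div_le_iff₀ hApos]
      exact h7
    · right
      have h6 : ‖Y (z₁ + (A : ℂ)⁻¹ * z) (v₁ + (B : ℂ)⁻¹ * v)‖ * ((1 - ‖v₁‖) / 2) ≤
          B * (1 - ‖v₁‖) := by
        calc _ ≤ ‖Y (z₁ + (A : ℂ)⁻¹ * z) (v₁ + (B : ℂ)⁻¹ * v)‖ * (1 - ‖v₁ + (B : ℂ)⁻¹ * v‖) := by
              gcongr
          _ ≤ N' := h5
          _ ≤ _ := hNB
      have h7 : ‖Y (z₁ + (A : ℂ)⁻¹ * z) (v₁ + (B : ℂ)⁻¹ * v)‖ ≤ 2 * B := by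
        by_contra hlt
        push Not at hlt
        nlinarith
      rw [← div_eq_mul_inv, div_le_iff₀ hBpos]
      exact h7
  · intro z v hz hv
    rw [norm_mul, hnB, ← div_eq_mul_inv]
    have := ha (z₁ + (A : ℂ)⁻¹ * z) (v₁ + (B : ℂ)⁻¹ * v) (by linarith [(hzin z hz).1])
      (by linarith [(hvin v hv).1])
    gcongr
  · intro z v hz hv
    rw [norm_mul, hnA, ← div_eq_mul_inv]
    have := hc (z₁ + (A : ℂ)⁻¹ * z) (v₁ + (B : ℂ)⁻¹ * v) (by linarith [(hzin z hz).1])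
      (by linarith [(hvin v hv).1])
    gcongr

/-- **The min theorem.** The two logarithmic derivatives of a zero-free solution of
`h_zv = a h_z + c h_v` cannot both be large. -/
theorem min_theorem (K : ℝ) (hK : 0 ≤ K) : ∃ C : ℝ, 0 < C ∧ ∀ (h X Y a c : ℂ → ℂ → ℂ),
    Dat 2 2 h X Y a c →
    (∀ z v, ‖z‖ < 2 → ‖v‖ < 2 → ‖a z v‖ ≤ K) → (∀ z v, ‖z‖ < 2 → ‖v‖ < 2 → ‖c z v‖ ≤ K) →
    ‖X 0 0‖ ≤ C ∨ ‖Y 0 0‖ ≤ C := by
  obtain ⟨R, ε₁, hR, hε₁, H⟩ := Good.false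
  refine ⟨max (2 * R) (K / ε₁), lt_max_of_lt_left (by linarith), ?_⟩
  intro h X Y a c D ha hc
  by_contra hcon
  push Not at hcon
  obtain ⟨hX, hY⟩ := hcon
  obtain ⟨N', h', X', Y', a', c', hN', G⟩ := D.rescale hK ha hc
    (lt_max_of_lt_left (by linarith)) hX hY
  have h1 : 2 * R < N' := (le_max_left _ _).trans_lt hN'
  have h2 : K / ε₁ < N' := (le_max_right _ _).trans_lt hN'
  have hN0 : 0 < N' := by linarith
  refine H (N' / 2) (K / N') h' X' Y' a' c' G (by linarith) ?_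
  rw [div_le_iff₀ hN0]
  rw [div_lt_iff₀ hε₁] at h2
  linarith

end Pool.Agent.Lib.MP_c40ba2_an
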