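import Mathlib

set_option autoImplicit false
open Filter Metric Set Topology MeasureTheory
open scoped Real

namespace Pool.Agent.Lib.MP_c40ba2_an

/-- A jointly continuous integrand is bounded near a point, uniformly on `[0, 2π]`. -/
theorem local_bound {E : Type*} [PseudoMetricSpace E] [ProperSpace E] {U : Set E} (hU : IsOpen U)
    {F : E → ℝ → ℂ} (hF : ContinuousOn (fun p : E × ℝ => F p.1 p.2) (U ×ˢ univ)) {x₀ : E}
    (hx₀ : x₀ ∈ U) : ∃ ε > 0, closedBall x₀ ε ⊆ U ∧ ∃ C : ℝ, ∀ x ∈ closedBall x₀ ε,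
      ∀ θ ∈ Set.uIoc (0 : ℝ) (2 * π), ‖F x θ‖ ≤ C := by
  obtain ⟨ε, hε, hsub⟩ := nhds_basis_closedBall.mem_iff.1 (hU.mem_nhds hx₀)
  refine ⟨ε, hε, hsub, ?_⟩
  have hK : IsCompact (closedBall x₀ ε ×ˢ Icc (0 : ℝ) (2 * π)) :=
    (isCompact_closedBall _ _).prod isCompact_Icc
  obtain ⟨C, hC⟩ := hK.exists_bound_of_continuousOn (hF.mono (prod_mono hsub (subset_univ _)))
  refine ⟨C, fun x hx θ hθ => hC (x, θ) ⟨hx, ?_⟩⟩
  rw [uIoc_of_le (by positivity)] at hθ
  exact Ioc_subset_Icc_self hθ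

theorem cont_slice {E : Type*} [PseudoMetricSpace E] {U : Set E}
    {F : E → ℝ → ℂ} (hF : ContinuousOn (fun p : E × ℝ => F p.1 p.2) (U ×ˢ univ)) {x₀ : E}
    (hx₀ : x₀ ∈ U) : Continuous (F x₀) := by
  rw [← continuousOn_univ]
  have h1 : ContinuousOn (fun θ : ℝ => (x₀, θ)) univ := by fun_prop
  exact hF.comp h1 (fun θ _ => ⟨hx₀, mem_univ _⟩)

/-- Leibniz rule over `[0, 2π]`. -/
theorem leibniz {U : Set ℂ} (hU : IsOpen U) {F F' : ℂ → ℝ → ℂ}
    (hF : ContinuousOn (fun p : ℂ × ℝ => F p.1 p.2) (U ×ˢ univ))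
    (hF' : ContinuousOn (fun p : ℂ × ℝ => F' p.1 p.2) (U ×ˢ univ))
    (hd : ∀ z ∈ U, ∀ θ, HasDerivAt (fun w => F w θ) (F' z θ) z) {z₀ : ℂ} (hz₀ : z₀ ∈ U) :
    HasDerivAt (fun z => ∫ θ in (0 : ℝ)..(2 * π), F z θ) (∫ θ in (0 : ℝ)..(2 * π), F' z₀ θ) z₀ := by
  obtain ⟨ε, hε, hsub, C, hC⟩ := local_bound hU hF' hz₀
  refine (intervalIntegral.hasDerivAt_integral_of_dominated_loc_of_deriv_le
    (μ := volume) (F := F) (F' := F') (x₀ := z₀) (s := closedBall z₀ ε) (bound := fun _ => C)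
    (closedBall_mem_nhds _ hε) ?_ ?_ ?_ ?_ ?_ ?_).2
  · filter_upwards [hU.mem_nhds hz₀] with z hz
    exact (cont_slice hF hz).aestronglyMeasurable
  · exact (cont_slice hF hz₀).intervalIntegrable _ _
  · exact (cont_slice hF' hz₀).aestronglyMeasurable
  · exact Eventually.of_forall fun θ hθ z hz => hC z hz θ hθ
  · exact intervalIntegrable_const
  · exact Eventually.of_forall fun θ _ z hz => hd z (hsub hz) θ

/-- Continuity of a parametric integral over `[0, 2π]`. -/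
theorem continuousOn_integral {E : Type*} [PseudoMetricSpace E] [ProperSpace E] {U : Set E}
    (hU : IsOpen U) {F : E → ℝ → ℂ}
    (hF : ContinuousOn (fun p : E × ℝ => F p.1 p.2) (U ×ˢ univ)) :
    ContinuousOn (fun x => ∫ θ in (0 : ℝ)..(2 * π), F x θ) U := by
  intro x₀ hx₀
  obtain ⟨ε, hε, hsub, C, hC⟩ := local_bound hU hF hx₀
  apply ContinuousAt.continuousWithinAt
  refine intervalIntegral.continuousAt_of_dominated_interval (bound := fun _ => C) ?_ ?_ ?_ ?_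
  · filter_upwards [hU.mem_nhds hx₀] with z hz
    exact (cont_slice hF hz).aestronglyMeasurable
  · filter_upwards [closedBall_mem_nhds x₀ hε] with z hz
    exact Eventually.of_forall fun θ hθ => hC z hz θ hθ
  · exact intervalIntegrable_const
  · refine Eventually.of_forall fun θ _ => ?_
    have h1 : ContinuousAt (fun x : E => (x, θ)) x₀ := by fun_prop
    have h2 : ContinuousAt (fun p : E × ℝ => F p.1 p.2) (x₀, θ) :=
      hF.continuousAt ((hU.prod isOpen_univ).mem_nhds ⟨hx₀, mem_univ _⟩)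
    exact ContinuousAt.comp (f := fun x : E => (x, θ)) (g := fun p : E × ℝ => F p.1 p.2) h2 h1

end Pool.Agent.Lib.MP_c40ba2_an
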