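import Mathlib
import Pool.Agent.Lib.MP_c40ba2_an.Param
import Pool.Agent.Lib.MP_c40ba2_an.MinThm3

set_option autoImplicit false
open Filter Metric Set Topology MeasureTheory
open scoped Real

namespace Pool.Agent.Lib.MP_c40ba2_an

/-- The function `exp (-iθ)`. -/
noncomputable def ee (θ : ℝ) : ℂ := Complex.exp (-((θ : ℂ) * Complex.I))

theorem continuous_ee : Continuous ee := by
  unfold ee; fun_prop

theorem norm_ee (θ : ℝ) : ‖ee θ‖ = 1 := by
  unfold ee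
  rw [show -((θ : ℂ) * Complex.I) = ((-θ : ℝ) : ℂ) * Complex.I by push_cast; ring]
  exact Complex.norm_exp_ofReal_mul_I _

theorem one_sub_mem_slitPlane {w : ℂ} (hw : ‖w‖ < 1) : 1 - w ∈ Complex.slitPlane := by
  have := Complex.mem_slitPlane_of_norm_lt_one (z := -w) (by simpa using hw)
  simpa [sub_eq_add_neg] using this

theorem norm_mul_ee {z : ℂ} (θ : ℝ) : ‖z * ee θ‖ = ‖z‖ := by
  rw [norm_mul, norm_ee, mul_one]

/-- The basic integral `∫ G(θ) (1 - v e^{-iθ})^p (1 - z e^{-iθ})^q dθ`. -/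
noncomputable def J (G : ℝ → ℂ) (p q : ℂ) (z v : ℂ) : ℂ :=
  ∫ θ in (0 : ℝ)..(2 * π), G θ * ((1 - v * ee θ) ^ p * (1 - z * ee θ) ^ q)

theorem J_integrand_cont {G : ℝ → ℂ} (hG : Continuous G) (p q : ℂ) :
    ContinuousOn (fun s : (ℂ × ℂ) × ℝ =>
      G s.2 * ((1 - s.1.2 * ee s.2) ^ p * (1 - s.1.1 * ee s.2) ^ q))
      ((ball (0 : ℂ) 1 ×ˢ ball (0 : ℂ) 1) ×ˢ univ) := by
  have he : Continuous (fun s : (ℂ × ℂ) × ℝ => ee s.2) := continuous_ee.comp continuous_snd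
  have hG' : Continuous (fun s : (ℂ × ℂ) × ℝ => G s.2) := hG.comp continuous_snd
  have h1 : ContinuousOn (fun s : (ℂ × ℂ) × ℝ => (1 - s.1.2 * ee s.2) ^ p)
      ((ball (0 : ℂ) 1 ×ˢ ball (0 : ℂ) 1) ×ˢ univ) := by
    apply ContinuousOn.cpow _ continuousOn_const
    · rintro ⟨⟨z, v⟩, θ⟩ ⟨⟨hz, hv⟩, _⟩
      apply one_sub_mem_slitPlane
      rw [norm_mul_ee]
      simpa using hv
    · apply Continuous.continuousOn
      fun_prop
  have h2 : ContinuousOn (fun s : (ℂ × ℂ) × ℝ => (1 - s.1.1 * ee s.2) ^ q)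
      ((ball (0 : ℂ) 1 ×ˢ ball (0 : ℂ) 1) ×ˢ univ) := by
    apply ContinuousOn.cpow _ continuousOn_const
    · rintro ⟨⟨z, v⟩, θ⟩ ⟨⟨hz, hv⟩, _⟩
      apply one_sub_mem_slitPlane
      rw [norm_mul_ee]
      simpa using hz
    · apply Continuous.continuousOn
      fun_prop
  exact hG'.continuousOn.mul (h1.mul h2)

theorem J_cont {G : ℝ → ℂ} (hG : Continuous G) (p q : ℂ) :
    ContinuousOn (fun s : ℂ × ℂ => J G p q s.1 s.2) (ball (0 : ℂ) 1 ×ˢ ball (0 : ℂ) 1) :=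
  continuousOn_integral (isOpen_ball.prod isOpen_ball)
    (F := fun (s : ℂ × ℂ) (θ : ℝ) => G θ * ((1 - s.2 * ee θ) ^ p * (1 - s.1 * ee θ) ^ q))
    (J_integrand_cont hG p q)

theorem J_hz {G : ℝ → ℂ} (hG : Continuous G) (p q : ℂ) {z v : ℂ} (hz : ‖z‖ < 1) (hv : ‖v‖ < 1) :
    HasDerivAt (fun w => J G p q w v) (-q * J (fun θ => G θ * ee θ) p (q - 1) z v) z := by
  have hmap : ContinuousOn (fun s : ℂ × ℝ => ((s.1, v), s.2)) (ball (0 : ℂ) 1 ×ˢ univ) := by
    apply Continuous.continuousOn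
    fun_prop
  have hmaps : MapsTo (fun s : ℂ × ℝ => ((s.1, v), s.2)) (ball (0 : ℂ) 1 ×ˢ univ)
      ((ball (0 : ℂ) 1 ×ˢ ball (0 : ℂ) 1) ×ˢ univ) := by
    rintro ⟨z, θ⟩ ⟨hz, _⟩
    exact ⟨⟨hz, by simpa using hv⟩, mem_univ _⟩
  have c1 := (J_integrand_cont hG p q).comp hmap hmaps
  have hGe : Continuous (fun θ => G θ * ee θ) := hG.mul continuous_ee
  have c2 := (J_integrand_cont hGe p (q - 1)).comp hmap hmaps
  have c3 := (continuousOn_const (c := -q)).mul c2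
  have := leibniz (U := ball (0 : ℂ) 1) isOpen_ball
    (F := fun z θ => G θ * ((1 - v * ee θ) ^ p * (1 - z * ee θ) ^ q))
    (F' := fun z θ => -q * ((G θ * ee θ) * ((1 - v * ee θ) ^ p * (1 - z * ee θ) ^ (q - 1))))
    c1 c3 ?_ (z₀ := z) (by simpa using hz)
  · unfold J
    rw [← intervalIntegral.integral_const_mul]
    exact this
  · intro w hw θ
    have hw' : ‖w‖ < 1 := by simpa using hw
    have hs : 1 - w * ee θ ∈ Complex.slitPlane := one_sub_mem_slitPlane (by rwa [norm_mul_ee])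
    have h1 : HasDerivAt (fun w : ℂ => 1 - w * ee θ) (-(ee θ)) w := by
      simpa using ((hasDerivAt_id w).mul_const (ee θ)).const_sub 1
    have h2 := h1.cpow_const (c := q) hs
    have h3 := (h2.const_mul ((1 - v * ee θ) ^ p)).const_mul (G θ)
    exact h3.congr_deriv (by ring)

theorem J_hv {G : ℝ → ℂ} (hG : Continuous G) (p q : ℂ) {z v : ℂ} (hz : ‖z‖ < 1) (hv : ‖v‖ < 1) :
    HasDerivAt (fun w => J G p q z w) (-p * J (fun θ => G θ * ee θ) (p - 1) q z v) v := by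
  have hmap : ContinuousOn (fun s : ℂ × ℝ => ((z, s.1), s.2)) (ball (0 : ℂ) 1 ×ˢ univ) := by
    apply Continuous.continuousOn
    fun_prop
  have hmaps : MapsTo (fun s : ℂ × ℝ => ((z, s.1), s.2)) (ball (0 : ℂ) 1 ×ˢ univ)
      ((ball (0 : ℂ) 1 ×ˢ ball (0 : ℂ) 1) ×ˢ univ) := by
    rintro ⟨v, θ⟩ ⟨hv, _⟩
    exact ⟨⟨by simpa using hz, hv⟩, mem_univ _⟩
  have c1 := (J_integrand_cont hG p q).comp hmap hmaps
  have hGe : Continuous (fun θ => G θ * ee θ) := hG.mul continuous_ee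
  have c2 := (J_integrand_cont hGe (p - 1) q).comp hmap hmaps
  have c3 := (continuousOn_const (c := -p)).mul c2
  have := leibniz (U := ball (0 : ℂ) 1) isOpen_ball
    (F := fun v θ => G θ * ((1 - v * ee θ) ^ p * (1 - z * ee θ) ^ q))
    (F' := fun v θ => -p * ((G θ * ee θ) * ((1 - v * ee θ) ^ (p - 1) * (1 - z * ee θ) ^ q)))
    c1 c3 ?_ (z₀ := v) (by simpa using hv)
  · unfold J
    rw [← intervalIntegral.integral_const_mul]
    exact this
  · intro w hw θ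
    have hw' : ‖w‖ < 1 := by simpa using hw
    have hs : 1 - w * ee θ ∈ Complex.slitPlane := one_sub_mem_slitPlane (by rwa [norm_mul_ee])
    have h1 : HasDerivAt (fun w : ℂ => 1 - w * ee θ) (-(ee θ)) w := by
      simpa using ((hasDerivAt_id w).mul_const (ee θ)).const_sub 1
    have h2 := h1.cpow_const (c := p) hs
    have h3 := (h2.mul_const ((1 - z * ee θ) ^ q)).const_mul (G θ)
    exact h3.congr_deriv (by ring)

/-- The first order relation between the integrals, i.e. the Euler-Poisson-Darboux equation. -/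
theorem J_pde {G : ℝ → ℂ} (hG : Continuous G) (p q : ℂ) {z v : ℂ} (hz : ‖z‖ < 1) (hv : ‖v‖ < 1) :
    (z - v) * J (fun θ => G θ * ee θ) (p - 1) (q - 1) z v = J G p (q - 1) z v - J G (p - 1) q z v := by
  have hp : ((z, v) : ℂ × ℂ) ∈ ball (0 : ℂ) 1 ×ˢ ball (0 : ℂ) 1 := ⟨by simpa using hz, by simpa using hv⟩
  have c1 := cont_slice (F := fun (s : ℂ × ℂ) (θ : ℝ) =>
    G θ * ((1 - s.2 * ee θ) ^ p * (1 - s.1 * ee θ) ^ (q - 1))) (J_integrand_cont hG p (q - 1)) hp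
  have c2 := cont_slice (F := fun (s : ℂ × ℂ) (θ : ℝ) =>
    G θ * ((1 - s.2 * ee θ) ^ (p - 1) * (1 - s.1 * ee θ) ^ q)) (J_integrand_cont hG (p - 1) q) hp
  unfold J
  rw [← intervalIntegral.integral_const_mul, ← intervalIntegral.integral_sub
    (c1.intervalIntegrable _ _) (c2.intervalIntegrable _ _)]
  congr 1
  funext θ
  have hsv : 1 - v * ee θ ≠ 0 :=
    Complex.slitPlane_ne_zero (one_sub_mem_slitPlane (by rwa [norm_mul_ee]))
  have hsz : 1 - z * ee θ ≠ 0 :=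
    Complex.slitPlane_ne_zero (one_sub_mem_slitPlane (by rwa [norm_mul_ee]))
  have e1 : (1 - v * ee θ) ^ p = (1 - v * ee θ) ^ (p - 1) * (1 - v * ee θ) := by
    rw [Complex.cpow_sub _ _ hsv, Complex.cpow_one]
    field_simp
  have e2 : (1 - z * ee θ) ^ q = (1 - z * ee θ) ^ (q - 1) * (1 - z * ee θ) := by
    rw [Complex.cpow_sub _ _ hsz, Complex.cpow_one]
    field_simp
  rw [e1, e2]
  ring

end Pool.Agent.Lib.MP_c40ba2_an
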