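import Mathlib
import Pool.Agent.Lib.MP_c40ba2_an.Kernel

set_option autoImplicit false
open Filter Metric Set Topology MeasureTheory
open scoped Real

namespace Pool.Agent.Lib.MP_c40ba2_an

/-- If a jointly continuous `f(x,t)`, holomorphic in `x`, has no zero for `‖x‖ = 1` and `f(·,0)` is a
nonzero constant, then it has no zero for `‖x‖ ≤ 1`. -/
theorem zero_free_of_circle {f : ℂ → ℝ → ℂ}
    (hc : ContinuousOn (fun s : ℂ × ℝ => f s.1 s.2) (closedBall (0 : ℂ) 1 ×ˢ Icc (0 : ℝ) 1))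
    (hd : ∀ t ∈ Icc (0 : ℝ) 1, ∀ x, ‖x‖ ≤ 1 → DifferentiableAt ℂ (fun x => f x t) x)
    (h0 : ∀ x, ‖x‖ ≤ 1 → f x 0 = f 1 0)
    (hne : ∀ t ∈ Icc (0 : ℝ) 1, ∀ x, ‖x‖ = 1 → f x t ≠ 0) :
    ∀ t ∈ Icc (0 : ℝ) 1, ∀ x, ‖x‖ ≤ 1 → f x t ≠ 0 := by
  have hK : IsCompact (sphere (0 : ℂ) 1 ×ˢ Icc (0 : ℝ) 1) := (isCompact_sphere _ _).prod isCompact_Icc
  have hcs : ContinuousOn (fun s : ℂ × ℝ => ‖f s.1 s.2‖) (sphere (0 : ℂ) 1 ×ˢ Icc (0 : ℝ) 1) :=
    (hc.mono (prod_mono sphere_subset_closedBall le_rfl)).norm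
  obtain ⟨⟨x₀, t₀⟩, hp₀, hmin⟩ := hK.exists_isMinOn ⟨(1, 0), by simp⟩ hcs
  set m : ℝ := ‖f x₀ t₀‖ with hm
  have hmpos : 0 < m := norm_pos_iff.2 (hne t₀ hp₀.2 x₀ (by simpa using hp₀.1))
  have hmle : ∀ t ∈ Icc (0 : ℝ) 1, ∀ x, ‖x‖ = 1 → m ≤ ‖f x t‖ := fun t ht x hx =>
    hmin (show (x, t) ∈ _ from ⟨by simpa using hx, ht⟩)
  -- the good set
  set S : Set ℝ := {t | ∀ x, ‖x‖ ≤ 1 → m ≤ ‖f x t‖} with hS
  have hstep : ∀ t ∈ Icc (0 : ℝ) 1, (∀ x, ‖x‖ ≤ 1 → f x t ≠ 0) → t ∈ S := by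
    intro t ht hz x hx
    exact min_disc (G := fun x => f x t) one_pos hmpos (hd t ht) hz (hmle t ht) x hx
  have huc : UniformContinuousOn (fun s : ℂ × ℝ => f s.1 s.2)
      (closedBall (0 : ℂ) 1 ×ˢ Icc (0 : ℝ) 1) :=
    ((isCompact_closedBall _ _).prod isCompact_Icc).uniformContinuousOn_of_continuous hc
  rw [Metric.uniformContinuousOn_iff] at huc
  obtain ⟨δ, hδ, huc'⟩ := huc (m / 2) (by positivity)
  have hclosed : IsClosed (S ∩ Icc 0 1) := by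
    have : S ∩ Icc 0 1 = ⋂ x ∈ closedBall (0 : ℂ) 1, (Icc (0 : ℝ) 1 ∩ (fun t => ‖f x t‖) ⁻¹' (Ici m)) := by
      ext t
      simp only [hS, mem_inter_iff, mem_ofPred_eq, mem_iInter, mem_preimage, mem_Ici,
        mem_closedBall, dist_zero_right]
      constructor
      · rintro ⟨h1, h2⟩ x hx
        exact ⟨h2, h1 x hx⟩
      · intro h
        exact ⟨fun x hx => (h x hx).2, (h 0 (by simp)).1⟩
    rw [this]
    apply isClosed_biInter
    intro x hx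
    have hcx : ContinuousOn (fun t => ‖f x t‖) (Icc (0 : ℝ) 1) := by
      have h1 : ContinuousOn (fun t : ℝ => (x, t)) (Icc (0 : ℝ) 1) := by fun_prop
      exact (hc.comp h1 (fun t ht => ⟨hx, ht⟩)).norm
    exact hcx.preimage_isClosed_of_isClosed isClosed_Icc isClosed_Ici
  have h0S : (0 : ℝ) ∈ S := by
    intro x hx
    rw [h0 x hx]
    exact hmle 0 (by simp) 1 (by simp)
  have hall : Icc (0 : ℝ) 1 ⊆ S := by
    apply hclosed.Icc_subset_of_forall_exists_gt h0S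
    rintro t ⟨htS, ht0, ht1⟩ y hy
    have hty : t < y := hy
    -- choose t' slightly bigger
    set t' : ℝ := min y (min 1 (t + δ / 2)) with ht'
    have ht't : t < t' := lt_min hty (lt_min ht1 (by linarith))
    have ht'y : t' ≤ y := min_le_left _ _
    have ht'1 : t' ≤ 1 := (min_le_right _ _).trans (min_le_left _ _)
    have ht'δ : t' ≤ t + δ / 2 := (min_le_right _ _).trans (min_le_right _ _)
    refine ⟨t', ?_, ht't, ht'y⟩
    apply hstep t' ⟨by linarith, ht'1⟩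
    intro x hx hzero
    have h1 := huc' (x, t) ⟨by simpa using hx, ht0, ht1.le⟩ (x, t') ⟨by simpa using hx, by linarith, ht'1⟩
      (by
        rw [Prod.dist_eq]
        simp only [dist_self]
        rw [max_lt_iff]
        refine ⟨hδ, ?_⟩
        rw [Real.dist_eq, abs_sub_comm, abs_of_pos (by linarith)]
        linarith)
    simp only at h1
    rw [hzero, dist_zero_right] at h1
    have h2 := htS x hx
    linarith
  intro t ht x hx hzero
  have := hall ht x hx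
  rw [hzero, norm_zero] at this
  linarith

/-- Zero-freeness of `J` on `‖v‖ ≤ ‖z‖` from that on `‖v‖ = ‖z‖`. -/
theorem J_ne_zero {G : ℝ → ℂ} (hG : Continuous G) (p q : ℂ)
    (hne : ∀ z, ‖z‖ < 1 → ∀ x, ‖x‖ = 1 → J G p q z (-(x * z)) ≠ 0) :
    ∀ z v, ‖z‖ < 1 → ‖v‖ ≤ ‖z‖ → J G p q z v ≠ 0 := by
  intro z v hz hv
  have hin : ∀ t ∈ Icc (0 : ℝ) 1, ‖(t : ℂ) * z‖ < 1 := by
    intro t ht
    rw [norm_mul, Complex.norm_real, Real.norm_of_nonneg ht.1]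
    nlinarith [ht.2, norm_nonneg z]
  have hin2 : ∀ t ∈ Icc (0 : ℝ) 1, ∀ x : ℂ, ‖x‖ ≤ 1 → ‖-(x * ((t : ℂ) * z))‖ < 1 := by
    intro t ht x hx
    rw [norm_neg, norm_mul]
    have := hin t ht
    nlinarith [norm_nonneg x, norm_nonneg ((t : ℂ) * z)]
  obtain ⟨f, hf⟩ : ∃ f : ℂ → ℝ → ℂ, ∀ x t, f x t = J G p q ((t : ℂ) * z) (-(x * ((t : ℂ) * z))) :=
    ⟨_, fun _ _ => rfl⟩
  have hc : ContinuousOn (fun s : ℂ × ℝ => f s.1 s.2) (closedBall (0 : ℂ) 1 ×ˢ Icc (0 : ℝ) 1) := by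
    have hmap : ContinuousOn (fun s : ℂ × ℝ => ((s.2 : ℂ) * z, -(s.1 * ((s.2 : ℂ) * z))))
        (closedBall (0 : ℂ) 1 ×ˢ Icc (0 : ℝ) 1) := by
      apply Continuous.continuousOn
      fun_prop
    have hmaps : MapsTo (fun s : ℂ × ℝ => ((s.2 : ℂ) * z, -(s.1 * ((s.2 : ℂ) * z))))
        (closedBall (0 : ℂ) 1 ×ˢ Icc (0 : ℝ) 1) (ball (0 : ℂ) 1 ×ˢ ball (0 : ℂ) 1) := by
      intro s hs
      refine ⟨?_, ?_⟩
      · rw [mem_ball_zero_iff]
        exact hin s.2 hs.2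
      · rw [mem_ball_zero_iff]
        exact hin2 s.2 hs.2 s.1 (mem_closedBall_zero_iff.1 hs.1)
    have h1 := (J_cont hG p q).comp hmap hmaps
    refine h1.congr ?_
    intro s _
    exact hf s.1 s.2
  have hd : ∀ t ∈ Icc (0 : ℝ) 1, ∀ x, ‖x‖ ≤ 1 → DifferentiableAt ℂ (fun x => f x t) x := by
    intro t ht x hx
    have h1 : DifferentiableAt ℂ (fun w => J G p q ((t : ℂ) * z) w) (-(x * ((t : ℂ) * z))) :=
      (J_hv hG p q (hin t ht) (hin2 t ht x hx)).differentiableAt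
    have h2 : DifferentiableAt ℂ (fun x : ℂ => -(x * ((t : ℂ) * z))) x := by fun_prop
    have h3 := DifferentiableAt.comp x h1 h2
    have h4 : (fun x => f x t) =
        (fun w => J G p q ((t : ℂ) * z) w) ∘ (fun x : ℂ => -(x * ((t : ℂ) * z))) := by
      funext x
      exact hf x t
    rw [h4]
    exact h3
  have h0 : ∀ x : ℂ, ‖x‖ ≤ 1 → f x 0 = f 1 0 := by
    intro x _
    rw [hf, hf]
    simp
  have hnn : ∀ t ∈ Icc (0 : ℝ) 1, ∀ x : ℂ, ‖x‖ = 1 → f x t ≠ 0 := by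
    intro t ht x hx
    rw [hf]
    exact hne _ (hin t ht) x hx
  have hfin := zero_free_of_circle hc hd h0 hnn
  rcases eq_or_ne z 0 with hz0 | hz0
  · have hv0 : v = 0 := by
      have : ‖v‖ ≤ 0 := by simpa [hz0] using hv
      simpa using this
    have := hne 0 (by simp) 1 (by simp)
    rw [hz0, hv0]
    simpa using this
  · have h3 := hfin 1 (by simp) (-(v / z)) (by
      rw [norm_neg, norm_div]
      have : 0 < ‖z‖ := norm_pos_iff.2 hz0
      rw [div_le_one this]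
      exact hv)
    rw [hf] at h3
    have e1 : -(-(v / z) * (((1 : ℝ) : ℂ) * z)) = v := by
      push_cast
      field_simp
    have e2 : ((1 : ℝ) : ℂ) * z = z := by push_cast; ring
    rw [e1, e2] at h3
    exact h3

end Pool.Agent.Lib.MP_c40ba2_an
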