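import Mathlib
import Pool.Agent.Lib.MP_c40ba2_an.ZeroFree

set_option autoImplicit false
open Filter Metric Set Topology MeasureTheory
open scoped Real

namespace Pool.Agent.Lib.MP_c40ba2_an

/-- `∂J/∂z`. -/
noncomputable def Jz (G : ℝ → ℂ) (p q : ℂ) (z v : ℂ) : ℂ :=
  -q * J (fun θ => G θ * ee θ) p (q - 1) z v

/-- `∂J/∂v`. -/
noncomputable def Jv (G : ℝ → ℂ) (p q : ℂ) (z v : ℂ) : ℂ :=
  -p * J (fun θ => G θ * ee θ) (p - 1) q z v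

/-- `∂²J/∂z∂v`. -/
noncomputable def Jzv (G : ℝ → ℂ) (p q : ℂ) (z v : ℂ) : ℂ :=
  p * q * J (fun θ => G θ * ee θ * ee θ) (p - 1) (q - 1) z v

theorem cGe {G : ℝ → ℂ} (hG : Continuous G) : Continuous (fun θ => G θ * ee θ) :=
  hG.mul continuous_ee

variable {G : ℝ → ℂ} {p q z v : ℂ}

theorem hasDerivAt_J_z (hG : Continuous G) (hz : ‖z‖ < 1) (hv : ‖v‖ < 1) :
    HasDerivAt (fun w => J G p q w v) (Jz G p q z v) z := J_hz hG p q hz hv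

theorem hasDerivAt_J_v (hG : Continuous G) (hz : ‖z‖ < 1) (hv : ‖v‖ < 1) :
    HasDerivAt (fun w => J G p q z w) (Jv G p q z v) v := J_hv hG p q hz hv

theorem hasDerivAt_Jz_v (hG : Continuous G) (hz : ‖z‖ < 1) (hv : ‖v‖ < 1) :
    HasDerivAt (fun w => Jz G p q z w) (Jzv G p q z v) v :=
  ((J_hv (cGe hG) p (q - 1) hz hv).const_mul (-q)).congr_deriv (by
    unfold Jzv; ring)

theorem hasDerivAt_Jv_z (hG : Continuous G) (hz : ‖z‖ < 1) (hv : ‖v‖ < 1) :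
    HasDerivAt (fun w => Jv G p q w v) (Jzv G p q z v) z :=
  ((J_hz (cGe hG) (p - 1) q hz hv).const_mul (-p)).congr_deriv (by
    unfold Jzv; ring)

theorem differentiableAt_Jz_z (hG : Continuous G) (hz : ‖z‖ < 1) (hv : ‖v‖ < 1) :
    DifferentiableAt ℂ (fun w => Jz G p q w v) z :=
  ((J_hz (cGe hG) p (q - 1) hz hv).const_mul (-q)).differentiableAt

theorem differentiableAt_Jv_v (hG : Continuous G) (hz : ‖z‖ < 1) (hv : ‖v‖ < 1) :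
    DifferentiableAt ℂ (fun w => Jv G p q z w) v :=
  ((J_hv (cGe hG) (p - 1) q hz hv).const_mul (-p)).differentiableAt

theorem J_epd (hG : Continuous G) (hz : ‖z‖ < 1) (hv : ‖v‖ < 1) :
    (z - v) * Jzv G p q z v = -p * Jz G p q z v + q * Jv G p q z v := by
  have h := J_pde (cGe hG) p q hz hv
  unfold Jzv Jz Jv
  linear_combination (p * q) * h

theorem J_epd' (hG : Continuous G) (hz : ‖z‖ < 1) (hv : ‖v‖ < 1) (hne : z - v ≠ 0) :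
    Jzv G p q z v = -p / (z - v) * Jz G p q z v + q / (z - v) * Jv G p q z v := by
  have h := J_epd (p := p) (q := q) hG hz hv
  field_simp
  linear_combination h

theorem cont_Jz (hG : Continuous G) (p q : ℂ) :
    ContinuousOn (fun s : ℂ × ℂ => Jz G p q s.1 s.2) (ball (0 : ℂ) 1 ×ˢ ball (0 : ℂ) 1) :=
  continuousOn_const.mul (J_cont (cGe hG) p (q - 1))

theorem cont_Jv (hG : Continuous G) (p q : ℂ) :
    ContinuousOn (fun s : ℂ × ℂ => Jv G p q s.1 s.2) (ball (0 : ℂ) 1 ×ˢ ball (0 : ℂ) 1) :=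
  continuousOn_const.mul (J_cont (cGe hG) (p - 1) q)

/-- Local data around `(z₀, 0)` at scale `d`. -/
theorem dat_local (hG : Continuous G) {z₀ : ℂ} {d : ℝ} (hd : 0 < d)
    (hz₀ : 8 * d ≤ ‖z₀‖) (hz₁ : ‖z₀‖ + 2 * d ≤ 1)
    (hne : ∀ z v, ‖z‖ < 1 → ‖v‖ ≤ ‖z‖ → J G p q z v ≠ 0) :
    Dat 2 2 (fun ζ η => J G p q (z₀ + (d : ℂ) * ζ) (0 + (d : ℂ) * η))
      (fun ζ η => Jz G p q (z₀ + (d : ℂ) * ζ) (0 + (d : ℂ) * η) /
        J G p q (z₀ + (d : ℂ) * ζ) (0 + (d : ℂ) * η) * d)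
      (fun ζ η => Jv G p q (z₀ + (d : ℂ) * ζ) (0 + (d : ℂ) * η) /
        J G p q (z₀ + (d : ℂ) * ζ) (0 + (d : ℂ) * η) * d)
      (fun ζ η => -p / ((z₀ + (d : ℂ) * ζ) - (0 + (d : ℂ) * η)) * d)
      (fun ζ η => q / ((z₀ + (d : ℂ) * ζ) - (0 + (d : ℂ) * η)) * d) := by
  have hdn : ‖(d : ℂ)‖ = d := by rw [Complex.norm_real, Real.norm_of_nonneg hd.le]
  have hZ1 : ∀ ζ : ℂ, ‖ζ‖ < 2 → ‖z₀ + (d : ℂ) * ζ‖ < 1 := by
    intro ζ hζ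
    have h1 := norm_add_le z₀ ((d : ℂ) * ζ)
    rw [norm_mul, hdn] at h1
    nlinarith
  have hZ2 : ∀ ζ : ℂ, ‖ζ‖ < 2 → 6 * d ≤ ‖z₀ + (d : ℂ) * ζ‖ := by
    intro ζ hζ
    have h1 : ‖z₀‖ ≤ ‖z₀ + (d : ℂ) * ζ‖ + ‖(d : ℂ) * ζ‖ := by
      calc ‖z₀‖ = ‖(z₀ + (d : ℂ) * ζ) - (d : ℂ) * ζ‖ := by ring_nf
        _ ≤ _ := norm_sub_le _ _
    rw [norm_mul, hdn] at h1
    nlinarith
  have hV : ∀ η : ℂ, ‖η‖ < 2 → ‖0 + (d : ℂ) * η‖ < 2 * d := by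
    intro η hη
    rw [zero_add, norm_mul, hdn]
    nlinarith
  have hV1 : ∀ η : ℂ, ‖η‖ < 2 → ‖0 + (d : ℂ) * η‖ < 1 := by
    intro η hη
    have := hV η hη
    have := norm_nonneg z₀
    linarith
  have hJ : ∀ ζ η : ℂ, ‖ζ‖ < 2 → ‖η‖ < 2 →
      J G p q (z₀ + (d : ℂ) * ζ) (0 + (d : ℂ) * η) ≠ 0 := by
    intro ζ η hζ hη
    apply hne _ _ (hZ1 ζ hζ)
    have := hV η hη
    have := hZ2 ζ hζ
    linarith
  have hsub : ∀ ζ η : ℂ, ‖ζ‖ < 2 → ‖η‖ < 2 →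
      (z₀ + (d : ℂ) * ζ) - (0 + (d : ℂ) * η) ≠ 0 := by
    intro ζ η hζ hη h0
    have h1 := hV η hη
    have h2 := hZ2 ζ hζ
    rw [sub_eq_zero.1 h0] at h2
    linarith
  have hcmap : ContinuousOn (fun s : ℂ × ℂ => (z₀ + (d : ℂ) * s.1, 0 + (d : ℂ) * s.2))
      (ball (0 : ℂ) 2 ×ˢ ball (0 : ℂ) 2) := by
    apply Continuous.continuousOn
    fun_prop
  have hmaps : MapsTo (fun s : ℂ × ℂ => (z₀ + (d : ℂ) * s.1, 0 + (d : ℂ) * s.2))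
      (ball (0 : ℂ) 2 ×ˢ ball (0 : ℂ) 2) (ball (0 : ℂ) 1 ×ˢ ball (0 : ℂ) 1) := by
    intro s hs
    exact ⟨mem_ball_zero_iff.2 (hZ1 s.1 (mem_ball_zero_iff.1 hs.1)),
      mem_ball_zero_iff.2 (hV1 s.2 (mem_ball_zero_iff.1 hs.2))⟩
  have hcJ := (J_cont hG p q).comp hcmap hmaps
  have hcJz := (cont_Jz hG p q).comp hcmap hmaps
  have hcJv := (cont_Jv hG p q).comp hcmap hmaps
  constructor
  · exact hJ
  · intro ζ η hζ hη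
    have := hasDerivAt_affine_comp (G := fun w => J G p q w (0 + (d : ℂ) * η))
      (hasDerivAt_J_z (p := p) (q := q) hG (hZ1 ζ hζ) (hV1 η hη))
    refine this.congr_deriv ?_
    have := hJ ζ η hζ hη
    field_simp
  · intro ζ η hζ hη
    have := hasDerivAt_affine_comp (G := fun w => J G p q (z₀ + (d : ℂ) * ζ) w)
      (hasDerivAt_J_v (p := p) (q := q) hG (hZ1 ζ hζ) (hV1 η hη))
    refine this.congr_deriv ?_
    have := hJ ζ η hζ hη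
    field_simp
  · intro ζ η hζ hη
    have h1 := (hasDerivAt_Jz_v (p := p) (q := q) hG (hZ1 ζ hζ) (hV1 η hη)).div
      (hasDerivAt_J_v (p := p) (q := q) hG (hZ1 ζ hζ) (hV1 η hη)) (hJ ζ η hζ hη)
    have h2 := (hasDerivAt_affine_comp (G := fun w => Jz G p q (z₀ + (d : ℂ) * ζ) w /
      J G p q (z₀ + (d : ℂ) * ζ) w) h1).mul_const (d : ℂ)
    refine h2.congr_deriv ?_
    rw [J_epd' hG (hZ1 ζ hζ) (hV1 η hη) (hsub ζ η hζ hη)]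
    have e1 := hJ ζ η hζ hη
    have e2 := hsub ζ η hζ hη
    field_simp
    ring
  · intro ζ η hζ hη
    have h1 := (hasDerivAt_Jv_z (p := p) (q := q) hG (hZ1 ζ hζ) (hV1 η hη)).div
      (hasDerivAt_J_z (p := p) (q := q) hG (hZ1 ζ hζ) (hV1 η hη)) (hJ ζ η hζ hη)
    have h2 := (hasDerivAt_affine_comp (G := fun w => Jv G p q w (0 + (d : ℂ) * η) /
      J G p q w (0 + (d : ℂ) * η)) h1).mul_const (d : ℂ)
    refine h2.congr_deriv ?_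
    rw [J_epd' hG (hZ1 ζ hζ) (hV1 η hη) (hsub ζ η hζ hη)]
    have e1 := hJ ζ η hζ hη
    have e2 := hsub ζ η hζ hη
    field_simp
    ring
  · intro ζ η hζ hη
    have h1 := (differentiableAt_Jz_z (p := p) (q := q) hG (hZ1 ζ hζ) (hV1 η hη)).div
      (hasDerivAt_J_z (p := p) (q := q) hG (hZ1 ζ hζ) (hV1 η hη)).differentiableAt (hJ ζ η hζ hη)
    have h2 := (hasDerivAt_affine_comp (G := fun w => Jz G p q w (0 + (d : ℂ) * η) /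
      J G p q w (0 + (d : ℂ) * η)) h1.hasDerivAt).mul_const (d : ℂ)
    exact h2.differentiableAt
  · intro ζ η hζ hη
    have h1 := (differentiableAt_Jv_v (p := p) (q := q) hG (hZ1 ζ hζ) (hV1 η hη)).div
      (hasDerivAt_J_v (p := p) (q := q) hG (hZ1 ζ hζ) (hV1 η hη)).differentiableAt (hJ ζ η hζ hη)
    have h2 := (hasDerivAt_affine_comp (G := fun w => Jv G p q (z₀ + (d : ℂ) * ζ) w /
      J G p q (z₀ + (d : ℂ) * ζ) w) h1.hasDerivAt).mul_const (d : ℂ)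
    exact h2.differentiableAt
  · refine (hcJz.div hcJ ?_).mul continuousOn_const
    rintro ⟨ζ, η⟩ ⟨hζ, hη⟩
    exact hJ ζ η (mem_ball_zero_iff.1 hζ) (mem_ball_zero_iff.1 hη)
  · refine (hcJv.div hcJ ?_).mul continuousOn_const
    rintro ⟨ζ, η⟩ ⟨hζ, hη⟩
    exact hJ ζ η (mem_ball_zero_iff.1 hζ) (mem_ball_zero_iff.1 hη)

/-- The min theorem for `J` at the points `(z₀, 0)`. -/
theorem min_local (p q : ℂ) : ∃ C : ℝ, 0 < C ∧ ∀ (G : ℝ → ℂ) (z₀ : ℂ) (d : ℝ), Continuous G →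
    0 < d → 8 * d ≤ ‖z₀‖ → ‖z₀‖ + 2 * d ≤ 1 →
    (∀ z v, ‖z‖ < 1 → ‖v‖ ≤ ‖z‖ → J G p q z v ≠ 0) →
    ‖Jz G p q z₀ 0 / J G p q z₀ 0‖ ≤ C / d ∨ ‖Jv G p q z₀ 0 / J G p q z₀ 0‖ ≤ C / d := by
  obtain ⟨C, hC, H⟩ := min_theorem (max ‖p‖ ‖q‖) (le_max_of_le_left (norm_nonneg p))
  refine ⟨C, hC, ?_⟩
  intro G z₀ d hG hd hz₀ hz₁ hne
  have hdn : ‖(d : ℂ)‖ = d := by rw [Complex.norm_real, Real.norm_of_nonneg hd.le]
  have hlow : ∀ ζ η : ℂ, ‖ζ‖ < 2 → ‖η‖ < 2 →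
      d ≤ ‖(z₀ + (d : ℂ) * ζ) - (0 + (d : ℂ) * η)‖ := by
    intro ζ η hζ hη
    have h1 : ‖z₀‖ ≤ ‖(z₀ + (d : ℂ) * ζ) - (0 + (d : ℂ) * η)‖ + (‖(d : ℂ) * ζ‖ + ‖(d : ℂ) * η‖) := by
      calc ‖z₀‖ = ‖((z₀ + (d : ℂ) * ζ) - (0 + (d : ℂ) * η)) - ((d : ℂ) * ζ - (d : ℂ) * η)‖ := by
            ring_nf
        _ ≤ ‖(z₀ + (d : ℂ) * ζ) - (0 + (d : ℂ) * η)‖ + ‖(d : ℂ) * ζ - (d : ℂ) * η‖ := norm_sub_le _ _
        _ ≤ _ := by gcongr; exact norm_sub_le _ _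
    rw [norm_mul, norm_mul, hdn] at h1
    nlinarith
  have hb : ∀ (w : ℂ) (ζ η : ℂ), ‖ζ‖ < 2 → ‖η‖ < 2 → ‖w‖ ≤ max ‖p‖ ‖q‖ →
      ‖w / ((z₀ + (d : ℂ) * ζ) - (0 + (d : ℂ) * η)) * d‖ ≤ max ‖p‖ ‖q‖ := by
    intro w ζ η hζ hη hw
    have h2 := hlow ζ η hζ hη
    rw [norm_mul, norm_div, hdn, div_mul_eq_mul_div, div_le_iff₀ (by linarith)]
    have h3 : 0 ≤ max ‖p‖ ‖q‖ := (norm_nonneg w).trans hw
    gcongr
  have := H _ _ _ _ _ (dat_local (p := p) (q := q) hG hd hz₀ hz₁ hne)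
    (fun ζ η hζ hη => hb (-p) ζ η hζ hη (by rw [norm_neg]; exact le_max_left _ _))
    (fun ζ η hζ hη => hb q ζ η hζ hη (le_max_right _ _))
  simp only [mul_zero, add_zero, norm_mul, hdn] at this
  rcases this with h | h
  · left; rwa [le_div_iff₀ hd]
  · right; rwa [le_div_iff₀ hd]

end Pool.Agent.Lib.MP_c40ba2_an
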