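import Mathlib
import Pool.Agent.Lib.MP_c40ba2_an.LocalDat

set_option autoImplicit false
set_option maxHeartbeats 4000000
open Filter Metric Set Topology MeasureTheory
open scoped Real

namespace Pool.Agent.Lib.MP_c40ba2_an

/-- The uniform bound for the diagonal `v = 0`. -/
theorem main_bound (p q : ℂ) (hp : p ≠ 0) {r₀ : ℝ} (hr₀ : 0 < r₀) (hr₀1 : r₀ < 1) :
    ∃ C : ℝ, 0 < C ∧ ∀ (G : ℝ → ℂ), Continuous G →
      (∀ z v, ‖z‖ < 1 → ‖v‖ ≤ ‖z‖ → J G p q z v ≠ 0) →
      ∀ z, ‖z‖ ≤ r₀ → ‖J G p q z 0‖ ≤ C * ‖J G p q 0 0‖ := by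
  obtain ⟨C₀, hC₀, Hmin⟩ := min_local p q
  -- radii
  obtain ⟨r₁, hr₁⟩ : ∃ r₁ : ℝ, r₁ = (r₀ + 1) / 2 := ⟨_, rfl⟩
  have hr01 : r₀ < r₁ := by rw [hr₁]; linarith
  have hr11 : r₁ < 1 := by rw [hr₁]; linarith
  have hr1pos : 0 < r₁ := by linarith
  obtain ⟨r₂, hr₂⟩ : ∃ r₂ : ℝ, r₂ = (r₀ + r₁) / 2 := ⟨_, rfl⟩
  have hr02 : r₀ < r₂ := by rw [hr₂]; linarith
  have hr21 : r₂ < r₁ := by rw [hr₂]; linarith
  -- the scale
  obtain ⟨d, hd⟩ : ∃ d : ℝ, d = min (r₀ / 8) ((1 - r₁) / 2) := ⟨_, rfl⟩
  have hdpos : 0 < d := by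
    rw [hd]; exact lt_min (by linarith) (by linarith)
  have hd1 : 8 * d ≤ r₀ := by
    have : d ≤ r₀ / 8 := by rw [hd]; exact min_le_left _ _
    linarith
  have hd2 : r₁ + 2 * d ≤ 1 := by
    have : d ≤ (1 - r₁) / 2 := by rw [hd]; exact min_le_right _ _
    linarith
  obtain ⟨C₁, hC₁⟩ : ∃ C₁ : ℝ, C₁ = C₀ / d := ⟨_, rfl⟩
  have hC₁pos : 0 < C₁ := by rw [hC₁]; positivity
  obtain ⟨m, hm⟩ : ∃ m : ℝ, m = max (C₁ + 1) ‖p‖ := ⟨_, rfl⟩
  have hmC : C₁ + 1 ≤ m := by rw [hm]; exact le_max_left _ _
  have hmp : ‖p‖ ≤ m := by rw [hm]; exact le_max_right _ _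
  have hmpos : 0 < m := by linarith
  obtain ⟨K, hK⟩ : ∃ K : ℝ, K = ‖1 + q‖ + 2 * C₁ := ⟨_, rfl⟩
  have hK0 : 0 ≤ K := by rw [hK]; positivity
  obtain ⟨l, hl⟩ : ∃ l : ℝ, l = (Real.log r₁ - Real.log r₀) + 2 * π := ⟨_, rfl⟩
  obtain ⟨C₂, hC₂⟩ : ∃ C₂ : ℝ, C₂ = m * Real.exp (K * l) := ⟨_, rfl⟩
  have hC₂pos : 0 < C₂ := by rw [hC₂]; positivity
  have hppos : 0 < ‖p‖ := norm_pos_iff.2 hp
  obtain ⟨m₀, hm₀, Hmod⟩ := min_modulus (R₁ := r₀) (R₂ := r₂) (R := r₁) (L := C₂ + ‖p‖) (δ := ‖p‖)
    hr₀ hr02 hr21 hppos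
  obtain ⟨C₃, hC₃⟩ : ∃ C₃ : ℝ, C₃ = (‖1 + q‖ * (C₂ / r₀) + C₂ / ((r₁ - r₂) / 2)) / m₀ := ⟨_, rfl⟩
  obtain ⟨C₄, hC₄⟩ : ∃ C₄ : ℝ, C₄ = max C₁ C₃ := ⟨_, rfl⟩
  have hC₄pos : 0 < C₄ := by rw [hC₄]; exact lt_max_of_lt_left hC₁pos
  refine ⟨Real.exp (C₄ * r₀), Real.exp_pos _, ?_⟩
  intro G hG hne
  have h0 : ‖(0 : ℂ)‖ < 1 := by simp
  have hJ0 : ∀ z, ‖z‖ < 1 → J G p q z 0 ≠ 0 := fun z hz => hne z 0 hz (by simp)
  -- logarithmic derivatives on v = 0
  obtain ⟨X, hX⟩ : ∃ X : ℂ → ℂ, ∀ z, X z = Jz G p q z 0 / J G p q z 0 := ⟨_, fun _ => rfl⟩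
  obtain ⟨Y, hY⟩ : ∃ Y : ℂ → ℂ, ∀ z, Y z = Jv G p q z 0 / J G p q z 0 := ⟨_, fun _ => rfl⟩
  have hXf : X = fun z => Jz G p q z 0 / J G p q z 0 := funext hX
  have hYf : Y = fun z => Jv G p q z 0 / J G p q z 0 := funext hY
  have hXd : ∀ z, ‖z‖ < 1 → DifferentiableAt ℂ X z := by
    intro z hz
    rw [hXf]
    exact (differentiableAt_Jz_z hG hz h0).div (hasDerivAt_J_z hG hz h0).differentiableAt (hJ0 z hz)
  -- derivative of B = z Y
  have hB : ∀ z, ‖z‖ < 1 →
      HasDerivAt (fun z => z * Y z) ((1 + q) * Y z - (z * Y z + p) * X z) z := by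
    intro z hz
    have h1 := (hasDerivAt_Jv_z (p := p) (q := q) hG hz h0).div
      (hasDerivAt_J_z (p := p) (q := q) hG hz h0) (hJ0 z hz)
    have h2 : HasDerivAt Y ((Jzv G p q z 0 * J G p q z 0 - Jv G p q z 0 * Jz G p q z 0) /
        J G p q z 0 ^ 2) z := by
      rw [hYf]; exact h1
    have h3 := (hasDerivAt_id z).mul h2
    refine h3.congr_deriv ?_
    have h4 := J_epd (p := p) (q := q) hG hz h0
    rw [sub_zero] at h4
    have h5 := hJ0 z hz
    simp only [id, hX, hY]
    field_simp
    linear_combination (J G p q z 0) * h4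
  -- alternative on the annulus
  have halt : ∀ z, r₀ ≤ ‖z‖ → ‖z‖ ≤ r₁ → ‖X z‖ ≤ C₁ ∨ ‖Y z‖ ≤ C₁ := by
    intro z hz1 hz2
    rw [hX, hY, hC₁]
    exact Hmin G z d hG hdpos (by linarith) (by linarith) hne
  -- main estimate on the circle of radius r₀
  have hcircle : ∀ z₀, ‖z₀‖ = r₀ → ‖X z₀‖ ≤ C₄ := by
    intro z₀ hz₀
    rcases halt z₀ hz₀.ge (by linarith) with hx | hy
    · exact hx.trans (by rw [hC₄]; exact le_max_left _ _)
    · have hBz₀ : ‖z₀ * Y z₀‖ ≤ C₁ := by
        rw [norm_mul, hz₀]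
        nlinarith
      have hz₀ne : z₀ ≠ 0 := by
        intro h; rw [h, norm_zero] at hz₀; linarith
      -- bound of B on the annulus
      have hann : ∀ z, r₀ ≤ ‖z‖ → ‖z‖ ≤ r₁ → ‖z * Y z‖ ≤ C₂ := by
        intro z hz1 hz2
        have hzne : z ≠ 0 := by
          intro h; rw [h, norm_zero] at hz1; linarith
        by_contra hlarge
        push Not at hlarge
        have hexp : ∀ w : ℂ, Real.log r₀ ≤ w.re → w.re ≤ Real.log r₁ →
            r₀ ≤ ‖Complex.exp w‖ ∧ ‖Complex.exp w‖ ≤ r₁ := by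
          intro w h1 h2
          rw [Complex.norm_exp]
          constructor
          · calc r₀ = Real.exp (Real.log r₀) := (Real.exp_log hr₀).symm
              _ ≤ _ := Real.exp_le_exp.2 h1
          · calc Real.exp w.re ≤ Real.exp (Real.log r₁) := Real.exp_le_exp.2 h2
              _ = r₁ := Real.exp_log hr1pos
        have hres := persist_segment (G := fun w => Complex.exp w * Y (Complex.exp w))
          (G' := fun w => ((1 + q) * Y (Complex.exp w) -
            (Complex.exp w * Y (Complex.exp w) + p) * X (Complex.exp w)) * Complex.exp w)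
          (S := {w : ℂ | Real.log r₀ ≤ w.re} ∩ {w : ℂ | w.re ≤ Real.log r₁})
          ((convex_halfSpace_re_ge _).inter (convex_halfSpace_re_le _)) (K := K) (m := m) (l := l)
          hmpos hK0
          (by
            intro w hw
            have h1 := hexp w hw.1 hw.2
            have h2 := hB (Complex.exp w) (by linarith [h1.2])
            exact HasDerivAt.comp w h2 (Complex.hasDerivAt_exp w))
          (by
            intro w hw hmw
            have h1 := hexp w hw.1 hw.2
            have hmw' : m ≤ ‖Complex.exp w * Y (Complex.exp w)‖ := hmw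
            have hY1 : ‖Complex.exp w * Y (Complex.exp w)‖ ≤ ‖Y (Complex.exp w)‖ := by
              rw [norm_mul]
              nlinarith [norm_nonneg (Y (Complex.exp w)), norm_nonneg (Complex.exp w)]
            have hX1 : ‖X (Complex.exp w)‖ ≤ C₁ := by
              rcases halt _ h1.1 h1.2 with h | h
              · exact h
              · linarith
            have e1 : ((1 + q) * Y (Complex.exp w) -
                (Complex.exp w * Y (Complex.exp w) + p) * X (Complex.exp w)) * Complex.exp w =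
                (1 + q) * (Complex.exp w * Y (Complex.exp w)) -
                (Complex.exp w * Y (Complex.exp w) + p) * X (Complex.exp w) * Complex.exp w := by
              ring
            rw [e1]
            set b := Complex.exp w * Y (Complex.exp w) with hb
            calc ‖(1 + q) * b - (b + p) * X (Complex.exp w) * Complex.exp w‖
                ≤ ‖1 + q‖ * ‖b‖ + (‖b‖ + ‖p‖) * ‖X (Complex.exp w)‖ * ‖Complex.exp w‖ := by
                  refine (norm_sub_le _ _).trans ?_
                  have f1 : ‖(1 + q) * b‖ = ‖1 + q‖ * ‖b‖ := norm_mul _ _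
                  have f2 : ‖(b + p) * X (Complex.exp w) * Complex.exp w‖ =
                      ‖b + p‖ * ‖X (Complex.exp w)‖ * ‖Complex.exp w‖ := by
                    rw [norm_mul, norm_mul]
                  rw [f1, f2]
                  have f3 : ‖b + p‖ ≤ ‖b‖ + ‖p‖ := norm_add_le _ _
                  gcongr
              _ ≤ ‖1 + q‖ * ‖b‖ + (‖b‖ + ‖b‖) * C₁ * 1 := by
                  gcongr
                  · linarith
                  · linarith [h1.2]
              _ = K * ‖b‖ := by rw [hK]; ring)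
          (p := Complex.log z) (q := Complex.log z₀)
          (by
            simp only [mem_inter_iff, mem_ofPred_eq, Complex.log_re]
            exact ⟨Real.log_le_log hr₀ hz1, Real.log_le_log (by linarith) hz2⟩)
          (by
            simp only [mem_inter_iff, mem_ofPred_eq, Complex.log_re, hz₀]
            exact ⟨le_rfl, Real.log_le_log hr₀ hr01.le⟩)
          (by
            have h1 : ‖Complex.log z₀ - Complex.log z‖ ≤
                |(Complex.log z₀ - Complex.log z).re| + |(Complex.log z₀ - Complex.log z).im| :=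
              Complex.norm_le_abs_re_add_abs_im _
            have h2 : |(Complex.log z₀ - Complex.log z).re| ≤ Real.log r₁ - Real.log r₀ := by
              rw [Complex.sub_re, Complex.log_re, Complex.log_re, hz₀, abs_sub_comm, abs_of_nonneg]
              · linarith [Real.log_le_log (by linarith : 0 < ‖z‖) hz2]
              · linarith [Real.log_le_log hr₀ hz1]
            have h3 : |(Complex.log z₀ - Complex.log z).im| ≤ 2 * π := by
              rw [Complex.sub_im, Complex.log_im, Complex.log_im]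
              have a1 := Complex.abs_arg_le_pi z₀
              have a2 := Complex.abs_arg_le_pi z
              calc |z₀.arg - z.arg| ≤ |z₀.arg| + |z.arg| := abs_sub _ _
                _ ≤ 2 * π := by linarith
            rw [hl]; linarith)
          (by
            simp only [Complex.exp_log hzne]
            rw [hC₂] at hlarge
            exact hlarge)
        simp only [Complex.exp_log hz₀ne] at hres
        linarith
      have hdisc : ∀ z, ‖z‖ ≤ r₁ → ‖z * Y z‖ ≤ C₂ := by
        apply max_disc hr1pos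
        · intro z hz
          exact (hB z (by linarith)).differentiableAt
        · intro z hz
          exact hann z (by linarith) hz.le
      -- minimum modulus for B + p
      obtain ⟨r, hr1', hr2', hrm⟩ := Hmod (fun z => z * Y z + p)
        (by
          intro z hz
          have hz' : ‖z‖ < r₁ := mem_ball_zero_iff.1 hz
          exact ((hB z (by linarith)).differentiableAt.add_const p).differentiableWithinAt)
        (by
          intro z hz
          refine (norm_add_le _ _).trans ?_
          gcongr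
          exact hdisc z hz.le)
        (by simp)
      have hXr : ∀ z, ‖z‖ = r → ‖X z‖ ≤ C₃ := by
        intro z hz
        have hz1 : ‖z‖ < 1 := by linarith
        have hder := hB z hz1
        have hdb : ‖deriv (fun z => z * Y z) z‖ ≤ C₂ / ((r₁ - r₂) / 2) := by
          have hpos : 0 < (r₁ - r₂) / 2 := by linarith
          apply Complex.norm_deriv_le_of_forall_mem_sphere_norm_le hpos
          · apply DifferentiableOn.diffContOnCl
            rw [closure_ball _ hpos.ne']
            intro x hx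
            have h1 : ‖x - z‖ ≤ (r₁ - r₂) / 2 := by simpa [dist_eq_norm] using hx
            have h2 : ‖x‖ ≤ ‖x - z‖ + ‖z‖ := by
              calc ‖x‖ = ‖(x - z) + z‖ := by ring_nf
                _ ≤ _ := norm_add_le _ _
            exact (hB x (by linarith)).differentiableAt.differentiableWithinAt
          · intro x hx
            have h1 : ‖x - z‖ = (r₁ - r₂) / 2 := by simpa [dist_eq_norm] using hx
            have h2 : ‖x‖ ≤ ‖x - z‖ + ‖z‖ := by
              calc ‖x‖ = ‖(x - z) + z‖ := by ring_nf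
                _ ≤ _ := norm_add_le _ _
            exact hdisc x (by linarith)
        rw [hder.deriv] at hdb
        have hYz : ‖Y z‖ ≤ C₂ / r₀ := by
          have h1 := hdisc z (by linarith)
          rw [norm_mul, hz] at h1
          rw [le_div_iff₀ hr₀]
          nlinarith [norm_nonneg (Y z)]
        have hmz := hrm z hz
        have hident : (z * Y z + p) * X z = (1 + q) * Y z -
            ((1 + q) * Y z - (z * Y z + p) * X z) := by ring
        have h3 : m₀ * ‖X z‖ ≤ ‖1 + q‖ * (C₂ / r₀) + C₂ / ((r₁ - r₂) / 2) := by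
          calc m₀ * ‖X z‖ ≤ ‖z * Y z + p‖ * ‖X z‖ := by gcongr
            _ = ‖(z * Y z + p) * X z‖ := by rw [norm_mul]
            _ = ‖(1 + q) * Y z - ((1 + q) * Y z - (z * Y z + p) * X z)‖ := by rw [← hident]
            _ ≤ ‖1 + q‖ * ‖Y z‖ + ‖(1 + q) * Y z - (z * Y z + p) * X z‖ := by
                refine (norm_sub_le _ _).trans ?_
                rw [norm_mul]
            _ ≤ _ := by gcongr
        rw [hC₃, le_div_iff₀ hm₀]
        linarith
      have hrpos : 0 < r := by linarith
      have := max_disc (G := X) hrpos (fun z hz => hXd z (by linarith)) hXr z₀ (by linarith)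
      exact this.trans (by rw [hC₄]; exact le_max_right _ _)
  have hXall := max_disc (G := X) hr₀ (fun z hz => hXd z (by linarith)) hcircle
  -- growth of J(·,0)
  intro z hz
  have hg := growth_segment (G := fun w => J G p q w 0) (G' := fun z => Jz G p q z 0)
    (S := closedBall 0 r₀) (convex_closedBall 0 r₀) (K := C₄) (l := r₀) hC₄pos.le
    (fun w hw => hasDerivAt_J_z hG (by
      have : ‖w‖ ≤ r₀ := mem_closedBall_zero_iff.1 hw
      linarith) h0)
    (fun w hw => by
      have hw' : ‖w‖ ≤ r₀ := mem_closedBall_zero_iff.1 hw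
      have h1 := hXall w hw'
      have h2 := hJ0 w (by linarith)
      rw [hX, norm_div, div_le_iff₀ (norm_pos_iff.2 h2)] at h1
      exact h1)
    (p := 0) (q := z) (by simpa using hr₀.le) (by simpa using hz) (by simpa using hz)
  calc ‖J G p q z 0‖ ≤ ‖J G p q 0 0‖ * Real.exp (C₄ * r₀) := hg
    _ = _ := mul_comm _ _

end Pool.Agent.Lib.MP_c40ba2_an
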