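import Mathlib
import Pool.Agent.Lib.MP_c40ba2_an.Defs
import Pool.Agent.Lib.MP_c40ba2_an.Growth

set_option autoImplicit false
set_option maxHeartbeats 4000000
open Filter Metric Set Topology MeasureTheory
open scoped Real

namespace Pool.Agent.Lib.MP_c40ba2_an

theorem circleMap_mul_ee (ρ : ℝ) (θ : ℝ) : circleMap 0 ρ θ * ee θ = ρ := by
  unfold ee
  rw [circleMap_zero, mul_assoc, ← Complex.exp_add]
  simp

/-- Cauchy's formula for the Taylor coefficients. -/
theorem coeff_integral {φ : ℂ → ℂ} (hφ : DifferentiableOn ℂ φ (ball 0 1)) {ρ : ℝ} (h0 : 0 < ρ)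
    (h1 : ρ < 1) (n : ℕ) :
    ∫ θ in (0 : ℝ)..(2 * π), φ (circleMap 0 ρ θ) * ee θ ^ n = 2 * π * (taylorCoeff φ n * ρ ^ n) := by
  have hd : DifferentiableOn ℂ φ (closedBall 0 ρ) := hφ.mono (closedBall_subset_ball h1)
  have h := hd.circleIntegral_one_div_sub_center_pow_smul h0 n
  rw [circleIntegral] at h
  have hρ : (ρ : ℂ) ≠ 0 := by exact_mod_cast h0.ne'
  have hint : ∀ θ : ℝ, deriv (circleMap 0 ρ) θ • ((1 / (circleMap 0 ρ θ - 0) ^ (n + 1)) •
      φ (circleMap 0 ρ θ)) = (Complex.I / (ρ : ℂ) ^ n) * (φ (circleMap 0 ρ θ) * ee θ ^ n) := by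
    intro θ
    have hc : circleMap 0 ρ θ ≠ 0 := circleMap_ne_center h0.ne'
    have hee : ee θ = ρ / circleMap 0 ρ θ := by
      rw [eq_div_iff hc, mul_comm]
      exact circleMap_mul_ee ρ θ
    rw [deriv_circleMap, hee, sub_zero, div_pow]
    simp only [smul_eq_mul]
    field_simp
    ring
  rw [intervalIntegral.integral_congr (g := fun θ => (Complex.I / (ρ : ℂ) ^ n) *
    (φ (circleMap 0 ρ θ) * ee θ ^ n)) (fun θ _ => hint θ), intervalIntegral.integral_const_mul] at h
  have hI : (Complex.I / (ρ : ℂ) ^ n) ≠ 0 := div_ne_zero Complex.I_ne_zero (pow_ne_zero _ hρ)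
  apply mul_left_cancel₀ hI
  rw [h]
  unfold taylorCoeff
  simp only [smul_eq_mul]
  field_simp

theorem hasSum_taylorCoeff {g : ℂ → ℂ} (hg : DifferentiableOn ℂ g (ball 0 1)) {z : ℂ}
    (hz : ‖z‖ < 1) : HasSum (fun n : ℕ => taylorCoeff g n * z ^ n) (g z) :=
  hasSum_taylor hg hz

theorem continuous_boundary {φ : ℂ → ℂ} (hφ : DifferentiableOn ℂ φ (ball 0 1)) {ρ : ℝ} (h0 : 0 < ρ)
    (h1 : ρ < 1) : Continuous (fun θ => φ (circleMap 0 ρ θ)) := by
  rw [← continuousOn_univ]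
  refine hφ.continuousOn.comp (continuous_circleMap 0 ρ).continuousOn ?_
  intro θ _
  rw [mem_ball_zero_iff, norm_circleMap_zero, abs_of_pos h0]
  exact h1

/-- The Hadamard product as an integral. -/
theorem hadamard_integral {φ g : ℂ → ℂ} (hφ : DifferentiableOn ℂ φ (ball 0 1))
    (hg : DifferentiableOn ℂ g (ball 0 1)) {ρ : ℝ} (h0 : 0 < ρ) (h1 : ρ < 1) {z : ℂ}
    (hz : ‖z‖ < 1) :
    HasSum (fun n : ℕ => 2 * π * (taylorCoeff φ n * taylorCoeff g n * (ρ * z) ^ n))
      (∫ θ in (0 : ℝ)..(2 * π), φ (circleMap 0 ρ θ) * g (z * ee θ)) := by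
  have hG := continuous_boundary hφ h0 h1
  obtain ⟨M, hM⟩ : ∃ M : ℝ, ∀ θ ∈ Icc (0 : ℝ) (2 * π), ‖φ (circleMap 0 ρ θ)‖ ≤ M :=
    isCompact_Icc.exists_bound_of_continuousOn hG.continuousOn
  have hsn : Summable (fun n : ℕ => ‖taylorCoeff g n‖ * ‖z‖ ^ n) := by
    have h2 := (hasSum_taylorCoeff hg (z := (‖z‖ : ℂ)) (by simpa using hz)).summable.norm
    refine h2.congr fun n => ?_
    rw [norm_mul, norm_pow, Complex.norm_real, norm_norm]
  have key := intervalIntegral.hasSum_integral_of_dominated_convergence (μ := volume)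
    (a := 0) (b := 2 * π)
    (F := fun (n : ℕ) (θ : ℝ) => φ (circleMap 0 ρ θ) * (taylorCoeff g n * (z * ee θ) ^ n))
    (f := fun θ => φ (circleMap 0 ρ θ) * g (z * ee θ))
    (fun n _ => M * (‖taylorCoeff g n‖ * ‖z‖ ^ n))
    (by
      intro n
      exact (hG.mul (continuous_const.mul
        ((continuous_const.mul continuous_ee).pow n))).aestronglyMeasurable)
    (by
      intro n
      refine Eventually.of_forall fun θ hθ => ?_
      rw [uIoc_of_le (by positivity)] at hθ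
      have h2 := hM θ (Ioc_subset_Icc_self hθ)
      rw [norm_mul, norm_mul, norm_pow, norm_mul_ee]
      gcongr)
    (by
      refine Eventually.of_forall fun θ _ => ?_
      exact hsn.mul_left M)
    intervalIntegrable_const
    (by
      refine Eventually.of_forall fun θ _ => ?_
      exact (hasSum_taylorCoeff hg (z := z * ee θ) (by rwa [norm_mul_ee])).mul_left _)
  have hterm : ∀ n : ℕ, ∫ θ in (0 : ℝ)..(2 * π),
      φ (circleMap 0 ρ θ) * (taylorCoeff g n * (z * ee θ) ^ n) =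
      2 * π * (taylorCoeff φ n * taylorCoeff g n * (ρ * z) ^ n) := by
    intro n
    have e1 : (fun θ : ℝ => φ (circleMap 0 ρ θ) * (taylorCoeff g n * (z * ee θ) ^ n)) =
        fun θ : ℝ => (taylorCoeff g n * z ^ n) * (φ (circleMap 0 ρ θ) * ee θ ^ n) := by
      funext θ
      rw [mul_pow]
      ring
    rw [e1, intervalIntegral.integral_const_mul, coeff_integral hφ h0 h1 n, mul_pow]
    ring
  rw [← funext hterm]
  exact key

theorem differentiableOn_testFun (α β : ℝ) {x : ℂ} (hx : ‖x‖ ≤ 1) :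
    DifferentiableOn ℂ (testFun α β x) (ball 0 1) := by
  intro z hz
  have hz' : ‖z‖ < 1 := mem_ball_zero_iff.1 hz
  have hxz : ‖x * z‖ < 1 := by
    rw [norm_mul]
    nlinarith [norm_nonneg x, norm_nonneg z]
  have h1 : (1 + x * z) ∈ Complex.slitPlane := Complex.mem_slitPlane_of_norm_lt_one hxz
  have h2 : (1 - z) ∈ Complex.slitPlane := one_sub_mem_slitPlane hz'
  have d1 : DifferentiableAt ℂ (fun z : ℂ => (1 + x * z) ^ (α : ℂ)) z := by
    exact DifferentiableAt.cpow_const (f := fun z : ℂ => 1 + x * z) (by fun_prop) h1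
  have d2 : DifferentiableAt ℂ (fun z : ℂ => (1 - z) ^ (β : ℂ)) z := by
    exact DifferentiableAt.cpow_const (f := fun z : ℂ => 1 - z) (by fun_prop) h2
  have h3 : (1 - z) ^ (β : ℂ) ≠ 0 := by
    rw [Complex.cpow_ne_zero_iff]
    left
    exact Complex.slitPlane_ne_zero h2
  exact (d1.div d2 h3).differentiableWithinAt

/-- The link between `J` and the Hadamard product. -/
theorem J_eq_hadamard {φ : ℂ → ℂ} (hφ : DifferentiableOn ℂ φ (ball 0 1)) {ρ : ℝ} (h0 : 0 < ρ)
    (h1 : ρ < 1) (α β : ℝ) {x z : ℂ} (hx : ‖x‖ ≤ 1) (hz : ‖z‖ < 1) :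
    HasSum (fun n : ℕ => 2 * π * (taylorCoeff φ n * taylorCoeff (testFun α β x) n * (ρ * z) ^ n))
      (J (fun θ => φ (circleMap 0 ρ θ)) (α : ℂ) (-(β : ℂ)) z (-(x * z))) := by
  have h := hadamard_integral hφ (differentiableOn_testFun α β hx) h0 h1 hz
  have e1 : (∫ θ in (0 : ℝ)..(2 * π), φ (circleMap 0 ρ θ) * testFun α β x (z * ee θ)) =
      J (fun θ => φ (circleMap 0 ρ θ)) (α : ℂ) (-(β : ℂ)) z (-(x * z)) := by
    unfold J
    congr 1
    funext θ
    unfold testFun
    rw [Complex.cpow_neg, div_eq_mul_inv]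
    congr 3
    ring
  rw [← e1]
  exact h

theorem J_eq_hadamard' {φ : ℂ → ℂ} (hφ : DifferentiableOn ℂ φ (ball 0 1)) {ρ : ℝ} (h0 : 0 < ρ)
    (h1 : ρ < 1) (α β : ℝ) {x z : ℂ} (hx : ‖x‖ ≤ 1) (hz : ‖z‖ < 1) :
    J (fun θ => φ (circleMap 0 ρ θ)) (α : ℂ) (-(β : ℂ)) z (-(x * z)) =
      2 * π * hadamard φ (testFun α β x) (ρ * z) := by
  rw [← (J_eq_hadamard hφ h0 h1 α β hx hz).tsum_eq, tsum_mul_left]
  rfl

/-- Members of `T(α, β)` give zero-free `J`. -/
theorem J_ne_zero_of_mem {α β : ℝ} {φ : ℂ → ℂ} (hφ : φ ∈ classT α β) {ρ : ℝ} (h0 : 0 < ρ)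
    (h1 : ρ < 1) : ∀ z v, ‖z‖ < 1 → ‖v‖ ≤ ‖z‖ →
      J (fun θ => φ (circleMap 0 ρ θ)) (α : ℂ) (-(β : ℂ)) z v ≠ 0 := by
  obtain ⟨hd, _, hne⟩ := hφ
  apply J_ne_zero (continuous_boundary hd h0 h1)
  intro z hz x hx
  rw [J_eq_hadamard' hd h0 h1 α β hx.le hz]
  have h2 : ‖(ρ : ℂ) * z‖ < 1 := by
    rw [norm_mul, Complex.norm_real, Real.norm_of_nonneg h0.le]
    nlinarith [norm_nonneg z]
  have h3 := hne x hx (ρ * z) (mem_ball_zero_iff.2 h2)
  have h4 : (2 * π : ℂ) ≠ 0 := by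
    have := Real.pi_ne_zero
    simp [this]
  exact mul_ne_zero h4 h3

theorem iteratedDeriv_cpow (β : ℝ) (n : ℕ) : ∀ w : ℂ, ‖w‖ < 1 →
    iteratedDeriv n (testFun 0 β 0) w =
      (∏ j ∈ Finset.range n, ((β : ℂ) + j)) * (1 - w) ^ (-(β : ℂ) - n) := by
  induction n with
  | zero =>
    intro w _
    simp [testFun, Complex.cpow_neg]
  | succ n ih =>
    intro w hw
    rw [iteratedDeriv_succ]
    have hev : iteratedDeriv n (testFun 0 β 0) =ᶠ[𝓝 w]
        fun w => (∏ j ∈ Finset.range n, ((β : ℂ) + j)) * (1 - w) ^ (-(β : ℂ) - n) := by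
      filter_upwards [isOpen_ball.mem_nhds (mem_ball_zero_iff.2 hw)] with y hy
      exact ih y (mem_ball_zero_iff.1 hy)
    rw [hev.deriv_eq]
    have hs : (1 - w) ∈ Complex.slitPlane := one_sub_mem_slitPlane hw
    have h1 : HasDerivAt (fun w : ℂ => 1 - w) (-1) w := by
      simpa using (hasDerivAt_id w).const_sub 1
    have h2 := (h1.cpow_const (c := -(β : ℂ) - n) hs).const_mul
      (∏ j ∈ Finset.range n, ((β : ℂ) + j))
    rw [h2.deriv, Finset.prod_range_succ]
    have e1 : -(β : ℂ) - (n : ℂ) - 1 = -(β : ℂ) - ((n + 1 : ℕ) : ℂ) := by push_cast; ring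
    rw [e1]
    ring

theorem testFun_zero (α β : ℝ) : testFun α β 0 = testFun 0 β 0 := by
  funext z
  simp [testFun]

/-- Lower bound for the coefficients of `(1 - z)^{-β}`. -/
theorem coeff_lower {β : ℝ} (hβ : 0 < β) (α : ℝ) (n : ℕ) :
    min 1 β / (n + 1) ≤ ‖taylorCoeff (testFun α β 0) n‖ := by
  have hval : taylorCoeff (testFun α β 0) n =
      ((∏ j ∈ Finset.range n, (β + j)) / n.factorial : ℝ) := by
    unfold taylorCoeff
    rw [testFun_zero, iteratedDeriv_cpow β n 0 (by simp)]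
    simp
  have hpos : 0 ≤ (∏ j ∈ Finset.range n, (β + j)) / n.factorial := by
    apply div_nonneg _ (by positivity)
    apply Finset.prod_nonneg
    intro j _
    positivity
  rw [hval, Complex.norm_real, Real.norm_of_nonneg hpos]
  have hmin0 : 0 < min 1 β := lt_min one_pos hβ
  rcases n with _ | n
  · simp
  · have key : ∀ k : ℕ, min 1 β / (k + 1) ≤ (∏ j ∈ Finset.range (k + 1), (β + j)) / (k + 1).factorial := by
      intro k
      induction k with
      | zero => simp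
      | succ k ih =>
        rw [Finset.prod_range_succ, Nat.factorial_succ]
        push_cast
        have h3 : (1 : ℝ) ≤ (β + (k + 1)) / (k + 1) := by
          rw [le_div_iff₀ (by positivity)]
          linarith
        calc min 1 β / ((k : ℝ) + 1 + 1) = (min 1 β / (k + 1)) * ((k + 1) / (k + 1 + 1)) := by
              field_simp
          _ ≤ ((∏ j ∈ Finset.range (k + 1), (β + j)) / (k + 1).factorial) *
              (((β + (k + 1)) / (k + 1)) * ((k + 1) / (k + 1 + 1))) := by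
              have h4 : ((k : ℝ) + 1) / (k + 1 + 1) ≤
                  ((β + (k + 1)) / (k + 1)) * ((k + 1) / (k + 1 + 1)) := by
                have h5 : 0 ≤ ((k : ℝ) + 1) / (k + 1 + 1) := by positivity
                nlinarith
              gcongr
          _ = _ := by
              field_simp
    refine le_trans ?_ (key n)
    apply div_le_div_of_nonneg_left hmin0.le (by positivity)
    push_cast
    linarith

end Pool.Agent.Lib.MP_c40ba2_an
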