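import Mathlib
import Pool.Agent.Lib.MP_c40ba2_an.Hadamard

set_option autoImplicit false
set_option maxHeartbeats 4000000
open Filter Metric Set Topology MeasureTheory
open scoped Real

namespace Pool.Agent.Lib.MP_c40ba2_an

theorem coeff_unique {f : ℂ → ℂ} (hf : DifferentiableOn ℂ f (ball 0 1)) {c : ℕ → ℂ}
    (hc : ∀ z, ‖z‖ < 1 → HasSum (fun n => c n * z ^ n) (f z)) (n : ℕ) : c n = taylorCoeff f n := by
  have h1 : HasFPowerSeriesAt f (FormalMultilinearSeries.ofScalars ℂ c) 0 := by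
    rw [hasFPowerSeriesAt_iff]
    filter_upwards [isOpen_ball.mem_nhds (mem_ball_self (x := (0 : ℂ)) one_pos)] with z hz
    have := hc z (mem_ball_zero_iff.1 hz)
    simpa [FormalMultilinearSeries.coeff_ofScalars, mul_comm] using this
  have h2 : HasFPowerSeriesAt f (FormalMultilinearSeries.ofScalars ℂ (taylorCoeff f)) 0 := by
    rw [hasFPowerSeriesAt_iff]
    filter_upwards [isOpen_ball.mem_nhds (mem_ball_self (x := (0 : ℂ)) one_pos)] with z hz
    have := hasSum_taylorCoeff hf (mem_ball_zero_iff.1 hz)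
    simpa [FormalMultilinearSeries.coeff_ofScalars, mul_comm] using this
  have h3 := congrArg (fun p => FormalMultilinearSeries.coeff p n) (h1.eq_formalMultilinearSeries h2)
  simpa [FormalMultilinearSeries.coeff_ofScalars] using h3

/-- Members of `T(α, β)` are bounded on `‖z‖ ≤ r` by a constant depending only on `α, β, r`. -/
theorem uniform_bound {α β : ℝ} (hα : α ≠ 0) (hβ : 0 < β) {r : ℝ} (hr0 : 0 < r) (hr1 : r < 1) :
    ∃ M : ℝ, ∀ φ ∈ classT α β, ∀ z : ℂ, ‖z‖ ≤ r → ‖φ z‖ ≤ M := by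
  obtain ⟨s, hs⟩ : ∃ s : ℝ, s = (1 + r) / 2 := ⟨_, rfl⟩
  have hs0 : 0 < s := by rw [hs]; linarith
  have hs1 : s < 1 := by rw [hs]; linarith
  have hrs : r < s * s := by rw [hs]; nlinarith
  obtain ⟨C, hC, H⟩ := main_bound (α : ℂ) (-(β : ℂ)) (by exact_mod_cast hα) hs0 hs1
  have hκ : 0 < min 1 β := lt_min one_pos hβ
  obtain ⟨t, ht⟩ : ∃ t : ℝ, t = r / (s * s) := ⟨_, rfl⟩
  have ht0 : 0 ≤ t := by rw [ht]; positivity
  have ht1 : t < 1 := by rw [ht, div_lt_one (by positivity)]; exact hrs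
  have hsum : Summable (fun n : ℕ => C / min 1 β * (((n : ℝ) + 1) * t ^ n)) := by
    apply Summable.mul_left
    have h1 : Summable (fun n : ℕ => (n : ℝ) * t ^ n) := by
      have := summable_pow_mul_geometric_of_norm_lt_one (R := ℝ) 1 (r := t)
        (by rwa [Real.norm_of_nonneg ht0])
      simpa using this
    have h2 := summable_geometric_of_lt_one ht0 ht1
    refine (h1.add h2).congr fun n => ?_
    ring
  refine ⟨∑' n : ℕ, C / min 1 β * (((n : ℝ) + 1) * t ^ n), ?_⟩
  intro φ hφ z hz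
  have hd := hφ.1
  have hG := continuous_boundary hd hs0 hs1
  have hne := J_ne_zero_of_mem hφ hs0 hs1
  obtain ⟨G, hGdef⟩ : ∃ G : ℝ → ℂ, G = fun θ => φ (circleMap 0 s θ) := ⟨_, rfl⟩
  rw [← hGdef] at hG hne
  have hbound := H G hG hne
  -- the value at the origin
  have hJ00 : ‖J G (α : ℂ) (-(β : ℂ)) 0 0‖ = 2 * π := by
    have h1 := coeff_integral hd hs0 hs1 0
    have h2 : J G (α : ℂ) (-(β : ℂ)) 0 0 = 2 * π := by
      unfold J
      rw [hGdef]
      simp only [zero_mul, sub_zero, Complex.one_cpow, mul_one]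
      simpa [taylorCoeff, hφ.2.1] using h1
    rw [h2, norm_mul, Complex.norm_real, Real.norm_of_nonneg Real.pi_pos.le]
    simp
  -- Taylor coefficients of J(·,0)
  have hΨd : DifferentiableOn ℂ (fun z => J G (α : ℂ) (-(β : ℂ)) z 0) (ball 0 1) := by
    intro w hw
    exact (hasDerivAt_J_z hG (mem_ball_zero_iff.1 hw) (by simp)).differentiableAt.differentiableWithinAt
  have hcoef : ∀ n, 2 * π * (taylorCoeff φ n * taylorCoeff (testFun α β 0) n * (s : ℂ) ^ n) =
      taylorCoeff (fun z => J G (α : ℂ) (-(β : ℂ)) z 0) n := by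
    apply coeff_unique hΨd
    intro w hw
    have := J_eq_hadamard hd hs0 hs1 α β (x := 0) (by simp) hw
    rw [← hGdef] at this
    simp only [zero_mul, neg_zero] at this
    convert this using 2 with n
    rw [mul_pow]
    ring
  have hcb : ∀ n : ℕ, ‖taylorCoeff φ n‖ ≤ C / min 1 β * ((n : ℝ) + 1) / (s * s) ^ n := by
    intro n
    have h1 : ‖taylorCoeff (fun z => J G (α : ℂ) (-(β : ℂ)) z 0) n‖ ≤ (C * (2 * π)) / s ^ n := by
      apply norm_taylor_le hΨd hs0 hs1
      intro w hw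
      have := hbound w hw
      rwa [hJ00] at this
    have hpi : ‖(2 * π : ℂ)‖ = 2 * π := by
      rw [norm_mul, Complex.norm_real, Real.norm_of_nonneg Real.pi_pos.le]
      simp
    have hsn' : ‖(s : ℂ) ^ n‖ = s ^ n := by
      rw [norm_pow, Complex.norm_real, Real.norm_of_nonneg hs0.le]
    have hprod : ‖2 * π * (taylorCoeff φ n * taylorCoeff (testFun α β 0) n * (s : ℂ) ^ n)‖ =
        2 * π * (‖taylorCoeff φ n‖ * ‖taylorCoeff (testFun α β 0) n‖ * s ^ n) := by
      rw [norm_mul (2 * π : ℂ), hpi, norm_mul (taylorCoeff φ n * taylorCoeff (testFun α β 0) n),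
        norm_mul (taylorCoeff φ n), hsn']
    rw [← hcoef n, hprod] at h1
    have h2 := coeff_lower hβ α n
    have hpos : (0 : ℝ) < 2 * π := by positivity
    have hsn : 0 < s ^ n := by positivity
    have h3 : ‖taylorCoeff φ n‖ * ‖taylorCoeff (testFun α β 0) n‖ * s ^ n ≤ C / s ^ n := by
      have h4 : 2 * π * (‖taylorCoeff φ n‖ * ‖taylorCoeff (testFun α β 0) n‖ * s ^ n) ≤
          2 * π * (C / s ^ n) := by
        calc _ ≤ C * (2 * π) / s ^ n := h1
          _ = 2 * π * (C / s ^ n) := by ring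
      exact le_of_mul_le_mul_left h4 hpos
    have h5 : ‖taylorCoeff φ n‖ * (min 1 β / (n + 1)) * s ^ n ≤ C / s ^ n := by
      refine le_trans ?_ h3
      gcongr
    have hn1 : (0 : ℝ) < (n : ℝ) + 1 := by positivity
    rw [mul_pow, div_mul_eq_mul_div, div_div, le_div_iff₀ (by positivity)]
    have h6 : ‖taylorCoeff φ n‖ * (min 1 β / (n + 1)) * s ^ n * (s ^ n * ((n : ℝ) + 1)) ≤
        C / s ^ n * (s ^ n * ((n : ℝ) + 1)) := by gcongr
    calc ‖taylorCoeff φ n‖ * (min 1 β * (s ^ n * s ^ n))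
        = ‖taylorCoeff φ n‖ * (min 1 β / (n + 1)) * s ^ n * (s ^ n * ((n : ℝ) + 1)) := by
          field_simp
      _ ≤ C / s ^ n * (s ^ n * ((n : ℝ) + 1)) := h6
      _ = C * ((n : ℝ) + 1) := by field_simp
  have hz1 : ‖z‖ < 1 := by linarith
  have hS := hasSum_taylorCoeff hd hz1
  rw [← hS.tsum_eq]
  apply tsum_of_norm_bounded hsum.hasSum
  intro n
  rw [norm_mul, norm_pow]
  calc ‖taylorCoeff φ n‖ * ‖z‖ ^ n ≤ (C / min 1 β * ((n : ℝ) + 1) / (s * s) ^ n) * r ^ n := by
        gcongr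
        exact hcb n
    _ = C / min 1 β * (((n : ℝ) + 1) * t ^ n) := by
        rw [ht, div_pow]
        ring

/-- The class `T(α, β)` is normal. -/
theorem normality {α β : ℝ} (hα : α ≠ 0) (hβ : 0 < β) :
    IsNormalFamily (classT α β) (ball 0 1) := by
  intro f hf
  exact montel one_pos f (fun k => (hf k).1) (fun r hr0 hr1 => by
    obtain ⟨M, hM⟩ := uniform_bound hα hβ hr0 hr1
    exact ⟨M, fun k z hz => hM (f k) (hf k) z hz⟩)

end Pool.Agent.Lib.MP_c40ba2_an
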